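import Pool.Agent.STS.Defs
import Pool.Agent.STH.Tup

/-!
# STS, module Afd: large affine sets contain many non-models
-/

set_option autoImplicit false

namespace Pool.Agent.STS

open Finset Pool.Agent.STH Pool.Agent.STD

namespace AfdP

/-- sum of three points modulo 2 -/
def x3 {n : ℕ} (x y w : Pt n) : Pt n := fun i => (x i ^^ y i ^^ w i)

theorem x3_x3 {n : ℕ} (x p q : Pt n) : x3 x (x3 x p q) q = p := by
  funext i
  unfold x3
  cases x i <;> cases p i <;> cases q i <;> rfl

theorem dd_one {n : ℕ} (x a a' w : Pt n) : dist (x3 x a w) (x3 x a' w) = dist a a' := by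
  unfold STH.dist x3
  congr 1
  apply filter_congr
  intro i _
  cases x i <;> cases a i <;> cases a' i <;> cases w i <;> decide

theorem dd_two {n : ℕ} (x a a' w w' : Pt n) :
    dist (x3 x a w) (x3 x a' w') = dist (x3 a a' w) w' := by
  unfold STH.dist x3
  congr 1
  apply filter_congr
  intro i _
  cases x i <;> cases a i <;> cases a' i <;> cases w i <;> cases w' i <;> decide

theorem dd_comm {n : ℕ} (x y : Pt n) : dist x y = dist y x := by
  unfold STH.dist
  congr 1
  apply filter_congr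
  intro i _
  exact ⟨Ne.symm, Ne.symm⟩

/-- a ball inside a set -/
theorem ball {n t d : ℕ} {B : ℝ} (htd : t ≤ d) (hB : BallLe n d B) (A : Finset (Pt n))
    (x : Pt n) : (((A.filter fun x' => dist x x' < t).card : ℕ) : ℝ) ≤ B := by
  classical
  refine le_trans ?_ (hB x)
  have h1 : (A.filter fun x' => dist x x' < t).card ≤ Nat.card {x' : Pt n // dist x x' < d} := by
    rw [Nat.card_eq_fintype_card, Fintype.card_subtype]
    apply card_le_card
    intro y hy
    rw [mem_filter] at hy ⊢
    exact ⟨mem_univ _, lt_of_lt_of_le hy.2 htd⟩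
  exact_mod_cast h1

/-- greedy choice -/
theorem greedy {α : Type} (A : Finset α) (near : α → α → Prop) [∀ w, DecidablePred (near w)]
    (b : ℝ) (hb0 : 0 ≤ b)
    (hb : ∀ w, ((A.filter (near w)).card : ℝ) ≤ b) :
    ∀ m : ℕ, (m : ℝ) * b < A.card →
      ∃ w : Fin m → α, (∀ j, w j ∈ A) ∧ ∀ j j', j < j' → ¬ near (w j) (w j') := by
  classical
  intro m
  induction m with
  | zero => exact fun _ => ⟨Fin.elim0, fun j => j.elim0, fun j => j.elim0⟩
  | succ m ih =>
    intro hm
    push_cast at hm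
    have hm' : (m : ℝ) * b < A.card := by nlinarith
    obtain ⟨w, hw1, hw2⟩ := ih hm'
    -- a new element
    have hex : ∃ a ∈ A, ∀ j, ¬ near (w j) a := by
      by_contra hno
      push Not at hno
      have h1 : A ⊆ (univ : Finset (Fin m)).biUnion fun j => A.filter (near (w j)) := by
        intro a ha
        obtain ⟨j, hj⟩ := hno a ha
        rw [mem_biUnion]
        exact ⟨j, mem_univ _, mem_filter.2 ⟨ha, hj⟩⟩
      have h2 := (card_le_card h1).trans card_biUnion_le
      have h3 : (A.card : ℝ) ≤ ∑ j : Fin m, ((A.filter (near (w j))).card : ℝ) := by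
        exact_mod_cast h2
      have h4 : ∑ j : Fin m, ((A.filter (near (w j))).card : ℝ) ≤ ∑ _j : Fin m, b :=
        sum_le_sum fun j _ => hb (w j)
      rw [sum_const, card_univ, Fintype.card_fin, nsmul_eq_mul] at h4
      linarith
    obtain ⟨a, haA, ha⟩ := hex
    refine ⟨Fin.snoc w a, ?_, ?_⟩
    · intro j
      refine Fin.lastCases ?_ (fun i => ?_) j
      · rw [Fin.snoc_last]; exact haA
      · rw [Fin.snoc_castSucc]; exact hw1 i
    · intro j j' hjj'
      revert hjj'
      refine Fin.lastCases ?_ (fun i' => ?_) j'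
      · refine Fin.lastCases ?_ (fun i => ?_) j
        · intro h
          exact absurd h (lt_irrefl _)
        · intro _
          rw [Fin.snoc_last, Fin.snoc_castSucc]
          exact ha i
      · refine Fin.lastCases ?_ (fun i => ?_) j
        · intro h
          exact absurd h (not_lt.2 (Fin.le_last _))
        · intro h
          rw [Fin.snoc_castSucc, Fin.snoc_castSucc]
          exact hw2 i i' (by simpa using h)

theorem sq_le (r : ℕ) : r ^ 2 ≤ 8 * 2 ^ r := by
  induction r with
  | zero => norm_num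
  | succ r ih =>
    have h1 : r < 2 ^ r := Nat.lt_two_pow_self
    rw [pow_succ 2 r]
    nlinarith

end AfdP

open AfdP

theorem thm_Afd : St_Afd := by
  classical
  intro n r t d F B S hr hB htd hball hno hS X hX hXS
  by_contra hcon
  rw [not_le] at hcon
  have hB0 : 0 < B := lt_of_lt_of_le one_pos hB
  have hr0 : (1 : ℝ) ≤ r := by exact_mod_cast hr
  have hXc : (S : ℝ) < X.card := by exact_mod_cast hXS
  have hX0 : (0 : ℝ) < X.card := lt_of_le_of_lt (Nat.cast_nonneg S) hXc
  have hrB : 0 < (r : ℝ) * B := by positivity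
  have h81 : (1 : ℝ) ≤ 8 ^ r := one_le_pow₀ (by norm_num)
  have hSB : 8 * (8 ^ r * (r * B)) ≤ (S : ℝ) := by
    have e : (8 : ℝ) ^ (r + 1) * r * B = 8 * (8 ^ r * (r * B)) := by ring
    rw [← e]; exact hS
  have hSB2 : 8 * ((r : ℝ) * B) ≤ S := by
    have : (r : ℝ) * B ≤ 8 ^ r * (r * B) := by nlinarith
    linarith
  have hm : (X.card : ℝ) < 2 * ((X.filter F).card : ℝ) := by exact_mod_cast hcon
  obtain ⟨x₀, hx₀⟩ : X.Nonempty := by
    rw [← card_pos]
    exact_mod_cast hX0
  have hcl : ∀ p ∈ X, ∀ q ∈ X, x3 x₀ p q ∈ X := fun p hp q hq => hX x₀ p q hx₀ hp hq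
  -- the degrees
  have hdeg : ∀ q ∈ X, (X.filter fun p => F (x3 x₀ p q)).card = (X.filter F).card := by
    intro q hq
    refine card_nbij' (fun p => x3 x₀ p q) (fun p => x3 x₀ p q) ?_ ?_ ?_ ?_
    · intro p hp
      rw [mem_coe, mem_filter] at hp ⊢
      exact ⟨hcl p hp.1 q hq, hp.2⟩
    · intro p hp
      rw [mem_coe, mem_filter] at hp ⊢
      refine ⟨hcl p hp.1 q hq, ?_⟩
      rw [x3_x3]
      exact hp.2
    · intro p _
      exact x3_x3 x₀ p q
    · intro p _
      exact x3_x3 x₀ p q
  -- the tuples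
  let TT : Finset (Fin r → Pt n) := Fintype.piFinset fun _ => X
  have hTT : (TT.card : ℝ) = (X.card : ℝ) ^ r := by
    have : TT.card = X.card ^ r := by
      rw [Fintype.card_piFinset_const]
    exact_mod_cast this
  let Rel : (Fin r → Pt n) → Pt n → Prop := fun z q =>
    (∀ i, F (x3 x₀ (z i) q)) ∧ ∀ i j, i ≠ j → t ≤ dist (z i) (z j)
  have hA : ∀ q ∈ X, ((X.card : ℝ) / 4) ^ r ≤ ((TT.filter fun z => Rel z q).card : ℝ) := by
    intro q hq
    have hd := hdeg q hq
    have h0 : 2 * (r : ℝ) * B = 2 * (r * B) := by ring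
    have h1 := thm_Tup n r t (X.filter fun p => F (x3 x₀ p q)) B
      (fun x _ => ball htd hball _ x) (by
      rw [h0, hd]
      linarith)
    rw [hd] at h1
    have h2 : ((X.card : ℝ) / 4) ^ r ≤ (((X.filter F).card : ℝ) / 2) ^ r := by
      apply pow_le_pow_left₀ (div_nonneg hX0.le (by norm_num))
      linarith
    refine (h2.trans h1).trans ?_
    have h3 : Nat.card {z : Fin r → Pt n // (∀ i, z i ∈ X.filter fun p => F (x3 x₀ p q)) ∧
        ∀ i j, i ≠ j → t ≤ dist (z i) (z j)} ≤ (TT.filter fun z => Rel z q).card := by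
      rw [Nat.card_eq_fintype_card, Fintype.card_subtype]
      apply card_le_card
      intro z hz
      rw [mem_filter] at hz ⊢
      obtain ⟨-, hz1, hz2⟩ := hz
      refine ⟨Fintype.mem_piFinset.2 fun i => (mem_filter.1 (hz1 i)).1,
        fun i => (mem_filter.1 (hz1 i)).2, hz2⟩
    exact_mod_cast h3
  -- the pigeonhole principle
  obtain ⟨z, hz, hzc⟩ : ∃ z ∈ TT, (r : ℝ) * (r * r * B) <
      ((X.filter fun q => Rel z q).card : ℝ) := by
    by_contra hno'
    push Not at hno'
    have h1 : ∑ q ∈ X, ((TT.filter fun z => Rel z q).card : ℝ) =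
        ∑ z ∈ TT, ((X.filter fun q => Rel z q).card : ℝ) := by
      have h2 : ∑ q ∈ X, (TT.filter fun z => Rel z q).card =
          ∑ z ∈ TT, (X.filter fun q => Rel z q).card := by
        simp only [card_filter]
        rw [sum_comm]
      exact_mod_cast h2
    have h2 : (X.card : ℝ) * ((X.card : ℝ) / 4) ^ r ≤
        ∑ q ∈ X, ((TT.filter fun z => Rel z q).card : ℝ) := by
      rw [← nsmul_eq_mul, ← sum_const]
      exact sum_le_sum hA
    have h3 : ∑ z ∈ TT, ((X.filter fun q => Rel z q).card : ℝ) ≤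
        (X.card : ℝ) ^ r * (r * (r * r * B)) := by
      rw [← hTT, ← nsmul_eq_mul, ← sum_const]
      exact sum_le_sum hno'
    have h4 : (X.card : ℝ) * ((X.card : ℝ) / 4) ^ r ≤ (X.card : ℝ) ^ r * (r * (r * r * B)) := by
      rw [h1] at h2
      exact h2.trans h3
    rw [div_pow] at h4
    have hXr : (0 : ℝ) < (X.card : ℝ) ^ r := pow_pos hX0 r
    have h40 : (0 : ℝ) < 4 ^ r := by positivity
    have h5 : (X.card : ℝ) ≤ (r * (r * r * B)) * 4 ^ r := by
      have h6 : (X.card : ℝ) ^ r * (X.card / 4 ^ r) ≤ (X.card : ℝ) ^ r * (r * (r * r * B)) := by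
        have e : (X.card : ℝ) ^ r * (X.card / 4 ^ r) =
          (X.card : ℝ) * ((X.card : ℝ) ^ r / 4 ^ r) := by ring
        rw [e]; exact h4
      have h7 := le_of_mul_le_mul_left h6 hXr
      rwa [div_le_iff₀ h40] at h7
    have h6 : ((r : ℝ) ^ 2) ≤ 8 * 2 ^ r := by exact_mod_cast sq_le r
    have e8 : (8 : ℝ) ^ r = 2 ^ r * 4 ^ r := by
      rw [← mul_pow]; norm_num
    have h7 : (r * (r * r * B)) * (4 : ℝ) ^ r ≤ 8 * (8 ^ r * (r * B)) := by
      rw [e8]
      calc (r * (r * r * B)) * (4 : ℝ) ^ r = (r : ℝ) ^ 2 * ((r * B) * 4 ^ r) := by ring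
        _ ≤ (8 * 2 ^ r) * ((r * B) * 4 ^ r) := by
            refine mul_le_mul_of_nonneg_right h6 (by positivity)
        _ = _ := by ring
    linarith
  -- the points on the other side
  let near : Pt n → Pt n → Prop := fun w w' => ∃ i i' : Fin r, dist (x3 (z i) (z i') w) w' < t
  obtain ⟨w, hw1, hw2⟩ := greedy (X.filter fun q => Rel z q) near (r * r * B) (by positivity)
    (by
      intro w
      have h1 : (X.filter fun q => Rel z q).filter (near w) ⊆
          (univ : Finset (Fin r × Fin r)).biUnion fun ii =>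
            (X.filter fun q => Rel z q).filter fun w' => dist (x3 (z ii.1) (z ii.2) w) w' < t := by
        intro w' hw'
        rw [mem_filter] at hw'
        obtain ⟨hw'1, i, i', hii⟩ := hw'
        rw [mem_biUnion]
        exact ⟨(i, i'), mem_univ _, mem_filter.2 ⟨hw'1, hii⟩⟩
      have h2 := (card_le_card h1).trans card_biUnion_le
      have h3 : ((((X.filter fun q => Rel z q).filter (near w)).card : ℕ) : ℝ) ≤
          ∑ ii : Fin r × Fin r, ((((X.filter fun q => Rel z q).filter
            fun w' => dist (x3 (z ii.1) (z ii.2) w) w' < t).card : ℕ) : ℝ) := by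
        exact_mod_cast h2
      refine h3.trans ((sum_le_sum fun ii _ => ball htd hball _ _).trans (le_of_eq ?_))
      rw [sum_const, card_univ, Fintype.card_prod, Fintype.card_fin, nsmul_eq_mul]
      push_cast
      ring) r hzc
  have hr' : 0 < r := hr
  have hRel : ∀ j, Rel z (w j) := fun j => (mem_filter.1 (hw1 j)).2
  have hzsep : ∀ i j, i ≠ j → t ≤ dist (z i) (z j) := (hRel ⟨0, hr'⟩).2
  have hwsep : ∀ i i' j j', j < j' → t ≤ dist (x3 x₀ (z i) (w j)) (x3 x₀ (z i') (w j')) := by
    intro i i' j j' hjj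
    rw [dd_two]
    by_contra hlt
    exact hw2 j j' hjj ⟨i, i', not_le.1 hlt⟩
  obtain ⟨p, hp⟩ := hno (fun _ a b c => (a ^^ b ^^ c)) (fun i => Or.inr (Or.inr (Or.inr
    fun a b c => rfl))) x₀ z w (by
    intro p p' hpp
    show t ≤ dist (x3 x₀ (z p.1) (w p.2)) (x3 x₀ (z p'.1) (w p'.2))
    rcases lt_trichotomy p.2 p'.2 with h | h | h
    · exact hwsep _ _ _ _ h
    · rw [h, dd_one]
      apply hzsep
      intro h1
      exact hpp (Prod.ext h1 h)
    · rw [dd_comm]
      exact hwsep _ _ _ _ h)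
  exact hp ((hRel p.2).1 p.1)

end Pool.Agent.STS
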