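import Pool.Agent.STS.Defs

/-!
# The node lemma on a union of cylinders, for functions which are constant on affine cells
-/

set_option autoImplicit false

namespace Pool.Agent.STS

open Finset Pool.Agent.STH Pool.Agent.STD

private theorem CylL_mix_off {n : ℕ} (R : Finset (Fin n)) (w A : Pt n) : Off R A (mix R w A) := by
  intro i hi
  simp [mix, hi]

private def CylL_equiv {n : ℕ} (R : Finset (Fin n)) (D : Pt n → Prop)
    (hD : ∀ x x', D x → Off R x x' → D x') :
    {A : Pt n // D A ∧ ∀ i ∈ R, A i = false} × {w : Pt n // ∀ i, i ∉ R → w i = false} ≃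
      {x : Pt n // D x} where
  toFun q := ⟨mix R q.2.1 q.1.1, hD _ _ q.1.2.1 (CylL_mix_off R _ _)⟩
  invFun x := (⟨mix R (fun _ => false) x.1, hD _ _ x.2 (CylL_mix_off R _ _),
    fun i hi => by simp [mix, hi]⟩, ⟨mix R x.1 (fun _ => false), fun i hi => by simp [mix, hi]⟩)
  left_inv := by
    rintro ⟨⟨A, hA1, hA2⟩, ⟨w, hw⟩⟩
    refine Prod.ext (Subtype.ext (funext fun i => ?_)) (Subtype.ext (funext fun i => ?_))
    · by_cases hi : i ∈ R
      · simp [mix, hi, hA2 i hi]
      · simp [mix, hi]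
    · by_cases hi : i ∈ R
      · simp [mix, hi]
      · simp [mix, hi, hw i hi]
  right_inv := by
    rintro ⟨x, hx⟩
    refine Subtype.ext (funext fun i => ?_)
    by_cases hi : i ∈ R
    · simp [mix, hi]
    · simp [mix, hi]

private def CylL_cube {n : ℕ} (R : Finset (Fin n)) :
    {w : Pt n // ∀ i, i ∉ R → w i = false} ≃ (R → Bool) where
  toFun w i := w.1 i
  invFun f := ⟨fun i => if h : i ∈ R then f ⟨i, h⟩ else false, fun i hi => by simp [hi]⟩
  left_inv := by
    rintro ⟨w, hw⟩
    refine Subtype.ext (funext fun i => ?_)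
    by_cases hi : i ∈ R
    · simp [hi]
    · simp [hi, hw i hi]
  right_inv := by
    intro f
    funext i
    simp

private theorem CylL_count {n : ℕ} (R : Finset (Fin n)) (D : Pt n → Prop)
    (hD : ∀ x x', D x → Off R x x' → D x') (Φ : Pt n → Prop)
    (Ψ : {A : Pt n // D A ∧ ∀ i ∈ R, A i = false} → {w : Pt n // ∀ i, i ∉ R → w i = false} → Prop)
    (hΦ : ∀ A w, Ψ A w ↔ Φ (mix R w.1 A.1)) :
    Nat.card {q : {A : Pt n // D A ∧ ∀ i ∈ R, A i = false} ×
      {w : Pt n // ∀ i, i ∉ R → w i = false} // Ψ q.1 q.2} = Nat.card {x // D x ∧ Φ x} := by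
  refine Nat.card_congr ?_
  refine ((CylL_equiv R D hD).subtypeEquiv (q := fun x => Φ x.1) fun q => hΦ q.1 q.2).trans ?_
  exact Equiv.subtypeSubtypeEquivSubtypeInter D Φ

private theorem CylL_cell {n : ℕ} (R : Finset (Fin n)) (D F : Pt n → Prop) (m S : ℕ)
    (hA : AffDense F S) (c : Pt n → Fin (2 ^ m)) (hc : ∀ j, Affine fun x => c x = j)
    (A : {A : Pt n // D A ∧ ∀ i ∈ R, A i = false}) (j : Fin (2 ^ m)) :
    2 * ((Nat.card {z : {w : Pt n // ∀ i, i ∉ R → w i = false} //
        c z.1 = j ∧ F (mix R z.1 A.1)} : ℕ) : ℝ) ≤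
      ((Nat.card {z : {w : Pt n // ∀ i, i ∉ R → w i = false} // c z.1 = j} : ℕ) : ℝ) +
        (S : ℝ) := by
  classical
  have hinj : Function.Injective
      (fun z : {w : Pt n // ∀ i, i ∉ R → w i = false} => mix R z.1 A.1) := by
    intro w w' h1
    have h2 : mix R w.1 A.1 = mix R w'.1 A.1 := h1
    refine Subtype.ext (funext fun i => ?_)
    by_cases hi : i ∈ R
    · have h3 := congrFun h2 i
      simpa [mix, hi] using h3
    · rw [w.2 i hi, w'.2 i hi]
  set Zs : Finset {w : Pt n // ∀ i, i ∉ R → w i = false} :=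
    Finset.univ.filter (fun z => c z.1 = j) with hZs
  have e1 : Nat.card {z : {w : Pt n // ∀ i, i ∉ R → w i = false} // c z.1 = j} = Zs.card := by
    rw [Nat.card_eq_fintype_card, Fintype.card_subtype]
  have e2 : Nat.card {z : {w : Pt n // ∀ i, i ∉ R → w i = false} //
      c z.1 = j ∧ F (mix R z.1 A.1)} = (Zs.filter (fun z => F (mix R z.1 A.1))).card := by
    rw [Nat.card_eq_fintype_card, Fintype.card_subtype, hZs, Finset.filter_filter]
  set X : Finset (Pt n) := Zs.image (fun z => mix R z.1 A.1) with hX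
  have e3 : X.card = Zs.card := Finset.card_image_of_injective _ hinj
  have e4 : (X.filter F).card = (Zs.filter (fun z => F (mix R z.1 A.1))).card := by
    rw [hX, Finset.filter_image, Finset.card_image_of_injective _ hinj]
  have hAff : Affine fun x => x ∈ X := by
    intro x y w hx hy hw
    obtain ⟨z1, h1, rfl⟩ := Finset.mem_image.1 hx
    obtain ⟨z2, h2, rfl⟩ := Finset.mem_image.1 hy
    obtain ⟨z3, h3, rfl⟩ := Finset.mem_image.1 hw
    refine Finset.mem_image.2 ⟨⟨fun i => (z1.1 i ^^ z2.1 i ^^ z3.1 i), fun i hi => ?_⟩, ?_, ?_⟩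
    · show (z1.1 i ^^ z2.1 i ^^ z3.1 i) = false
      rw [z1.2 i hi, z2.2 i hi, z3.2 i hi]
      rfl
    · refine Finset.mem_filter.2 ⟨Finset.mem_univ _, ?_⟩
      exact hc j _ _ _ (Finset.mem_filter.1 h1).2 (Finset.mem_filter.1 h2).2
        (Finset.mem_filter.1 h3).2
    · funext i
      by_cases hi : i ∈ R
      · simp [mix, hi]
      · simp [mix, hi]
  rw [e1, e2, ← e3, ← e4]
  have h5 : 2 * (X.filter F).card ≤ X.card + S := by
    rcases Nat.lt_or_ge S X.card with h6 | h6
    · have := hA X hAff h6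
      omega
    · have := Finset.card_le_card (Finset.filter_subset F X)
      omega
  exact_mod_cast h5

theorem thm_CylL (h : St_NodL) : St_CylL := by
  classical
  intro K _ n F a d m S Y B hY hB hQ hBall hA R D G g haR hD hg hgc hG
  obtain ⟨c, hc, hcg⟩ := hgc
  have hcZ : Fintype.card {w : Pt n // ∀ i, i ∉ R → w i = false} = 2 ^ R.card := by
    rw [Fintype.card_congr (CylL_cube R)]
    simp
  have hcP : (Fintype.card {A : Pt n // D A ∧ ∀ i ∈ R, A i = false} : ℝ) * 2 ^ R.card =
      ((Nat.card {x // D x} : ℕ) : ℝ) := by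
    rw [← Nat.card_congr (CylL_equiv R D hD), Nat.card_prod, Nat.card_eq_fintype_card,
      Nat.card_eq_fintype_card, hcZ]
    push_cast
    rfl
  choose! α β hαβ using hG
  have key := h K {A : Pt n // D A ∧ ∀ i ∈ R, A i = false}
    {w : Pt n // ∀ i, i ∉ R → w i = false} (Fin (2 ^ m)) (fun A w => F (mix R w.1 A.1))
    (fun w => c w.1) (fun w => g w.1)
    (fun A => α A.1) (fun A => β A.1) (fun A A' => dOff R A.1 A'.1 < d) B (2 ^ R.card * Y) (S : ℝ)
    (by positivity) hB (Nat.cast_nonneg S) (fun z z' hzz => hcg z.1 z'.1 hzz)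
    (fun A j => CylL_cell R D F m S hA c hc A j) ?_ ?_
  · rw [CylL_count R D hD F (fun A w => F (mix R w.1 A.1)) fun A w => Iff.rfl,
      CylL_count R D hD (fun x => F x ∧ G x ≠ 1 ∨ ¬ F x ∧ G x ≠ 0)
        (fun A w => (F (mix R w.1 A.1) ∧ α A.1 + β A.1 * g w.1 ≠ 1) ∨
          (¬ F (mix R w.1 A.1) ∧ α A.1 + β A.1 * g w.1 ≠ 0)) ?_] at key
    · refine key.trans (le_of_eq ?_)
      rw [Fintype.card_fin, ← hcP]
      push_cast
      ring
    · intro A w
      have h1 : G (mix R w.1 A.1) = α A.1 + β A.1 * g w.1 := by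
        rw [hαβ A.1 A.2.1 _ (CylL_mix_off R w.1 A.1)]
        congr 2
        refine hg _ _ fun i hi => ?_
        simp [mix, hi]
      simp only [h1]
  · intro A
    refine le_trans ?_ (hBall A.1)
    rw [Nat.cast_le]
    refine Nat.card_le_card_of_injective (fun A' => ⟨A'.1.1, ?_⟩) ?_
    · refine lt_of_le_of_lt (Finset.card_le_card fun i hi => ?_) A'.2
      rw [Finset.mem_filter] at hi ⊢
      refine ⟨hi.1, fun hR => hi.2 ?_, hi.2⟩
      rw [A.2.2 i hR, A'.1.2.2 i hR]
    · intro A' A'' h1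
      have h2 := congrArg Subtype.val h1
      exact Subtype.ext (Subtype.ext h2)
  · intro A A' hn
    refine le_trans ?_ (hQ R haR A.1 A'.1 (not_lt.1 hn))
    rw [Nat.cast_le]
    refine Nat.card_le_card_of_injective (fun w => ⟨mix R w.1.1 A.1, CylL_mix_off R _ _, w.2.1, ?_⟩)
      ?_
    · have h1 : mix R (mix R w.1.1 A.1) A'.1 = mix R w.1.1 A'.1 := by
        funext i
        by_cases hi : i ∈ R
        · simp [mix, hi]
        · simp [mix, hi]
      rw [h1]
      exact w.2.2
    · intro w w' h1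
      have h2 : mix R w.1.1 A.1 = mix R w'.1.1 A.1 := congrArg Subtype.val h1
      refine Subtype.ext (Subtype.ext (funext fun i => ?_))
      by_cases hi : i ∈ R
      · have h3 := congrFun h2 i
        simpa [mix, hi] using h3
      · rw [w.1.2 i hi, w'.1.2 i hi]

end Pool.Agent.STS
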