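import Pool.Agent.STS.Defs

/-!
# The main path of a point in a program with tractable leaves (helper21, after `STH/Pth.lean`)
-/

set_option autoImplicit false

namespace Pool.Agent.STS

open Finset Pool.Agent.STH Pool.Agent.STD

/-- a node depends on its variables only -/
private theorem pthL_dep {K : Type} [Field K] {n s m : ℕ} (P : SProgram K n s m) :
    ∀ (v : Fin s) (x x' : Pt n), (∀ i ∈ P.vars v, x i = x' i) → P.val v x = P.val v x' := by
  intro v
  induction v using WellFoundedLT.induction with
  | ind v ih =>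
    intro x x' h
    rcases P.ok v with ⟨_, hc⟩ | ⟨t, a, b, ht, ha, hb, _, hv, hx⟩ |
      ⟨a, b, ha, hb, _, hv, α, β, γ, δ, hx⟩
    · exact hc x x' h
    · have h0 := ih t ht x x' (fun j hj => h j (by rw [hv]; exact mem_union_left _ hj))
      have h1 := ih a ha x x' (fun j hj => h j (by
        rw [hv]; exact mem_union_right _ (mem_union_left _ hj)))
      have h2 := ih b hb x x' (fun j hj => h j (by
        rw [hv]; exact mem_union_right _ (mem_union_right _ hj)))
      rcases hx x with ⟨e1, e2⟩ | ⟨e1, e2⟩ <;> rcases hx x' with ⟨e3, e4⟩ | ⟨e3, e4⟩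
      · rw [e2, e4, h1]
      · rw [h0, e3] at e1
        exact absurd e1 one_ne_zero
      · rw [h0, e3] at e1
        exact absurd e1 zero_ne_one
      · rw [e2, e4, h2]
    · have h1 := ih a ha x x' (fun j hj => h j (by rw [hv]; exact mem_union_left _ hj))
      have h2 := ih b hb x x' (fun j hj => h j (by rw [hv]; exact mem_union_right _ hj))
      rw [hx, hx, h1, h2]

/-- one step of the main path -/
private theorem pthL_step {K : Type} [Field K] {n s m : ℕ} (P : SProgram K n s m) (a E : ℕ)
    (haE : 2 * a ≤ E) (u : Fin s) (hu : E < (P.vars u).card) (hc : ¬ Cells m (P.val u)) :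
    ∃ (c : Bool → Fin s) (t : Pt n → Bool) (T : Bool → Finset (Fin n)),
      (∀ b, c b < u ∧ P.vars (c b) ⊆ T b ∧ T b ⊆ P.vars u ∧ a ≤ (T b).card) ∧
      ∀ x, ∃ α β : K, ∀ x', Off (T (t x)) x x' →
        t x' = t x ∧ P.val u x' = α + β * P.val (c (t x)) x' := by
  classical
  rcases P.ok u with ⟨hv, _⟩ | ⟨w, p, q, hw, hp, hq, hd, hv, hx⟩ |
      ⟨p, q, hp, hq, hd, hv, α, β, γ, δ, hx⟩
  · exact absurd hv hc
  · have hcard : (P.vars u).card = (P.vars w).card + (P.vars p ∪ P.vars q).card := by
      rw [hv, card_union_of_disjoint hd]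
    rcases le_total (P.vars w).card (P.vars p ∪ P.vars q).card with hle | hle
    · -- go to a child
      refine ⟨fun b => if b = true then q else p, fun x => decide (P.val w x = 1),
        fun _ => P.vars p ∪ P.vars q, ?_, ?_⟩
      · intro b
        have h1 : a ≤ (P.vars p ∪ P.vars q).card := by omega
        have h2 : P.vars p ∪ P.vars q ⊆ P.vars u := by rw [hv]; exact subset_union_right
        cases b
        · exact ⟨by simpa using hp, by simp, h2, h1⟩
        · exact ⟨by simpa using hq, by simp, h2, h1⟩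
      · intro x
        refine ⟨0, 1, fun x' h => ?_⟩
        have hwx : P.val w x' = P.val w x := by
          apply pthL_dep
          intro j hj
          exact h j (fun hj' => (disjoint_left.mp hd) hj hj')
        refine ⟨by simp only [hwx], ?_⟩
        rcases hx x' with ⟨e1, e2⟩ | ⟨e1, e2⟩
        · have : ¬ P.val w x = 1 := by
            rw [← hwx, e1]; exact zero_ne_one
          simp [this, e2]
        · have : P.val w x = 1 := by rw [← hwx, e1]
          simp [this, e2]
    · -- go to the tested node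
      refine ⟨fun _ => w, fun _ => false, fun _ => P.vars w, ?_, ?_⟩
      · intro b
        refine ⟨hw, Subset.refl _, by rw [hv]; exact subset_union_left, ?_⟩
        show a ≤ (P.vars w).card
        omega
      · intro x
        refine ⟨P.val p x, P.val q x - P.val p x, fun x' h => ⟨rfl, ?_⟩⟩
        have hpx : P.val p x' = P.val p x := by
          apply pthL_dep
          intro j hj
          exact h j (fun hj' => (disjoint_left.mp hd) hj' (mem_union_left _ hj))
        have hqx : P.val q x' = P.val q x := by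
          apply pthL_dep
          intro j hj
          exact h j (fun hj' => (disjoint_left.mp hd) hj' (mem_union_right _ hj))
        rcases hx x' with ⟨e1, e2⟩ | ⟨e1, e2⟩
        · rw [e2, hpx, e1]; ring
        · rw [e2, hqx, e1]; ring
  · -- the gate
    have key : ∀ (m o : Fin s), m < u → Disjoint (P.vars m) (P.vars o) →
        P.vars u = P.vars m ∪ P.vars o → (P.vars o).card ≤ (P.vars m).card →
        (∀ x, ∃ A B : K, ∀ x', P.val o x' = P.val o x → P.val u x' = A + B * P.val m x') →
        ∃ (c : Bool → Fin s) (t : Pt n → Bool) (T : Bool → Finset (Fin n)),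
          (∀ b, c b < u ∧ P.vars (c b) ⊆ T b ∧ T b ⊆ P.vars u ∧ a ≤ (T b).card) ∧
          ∀ x, ∃ α β : K, ∀ x', Off (T (t x)) x x' →
            t x' = t x ∧ P.val u x' = α + β * P.val (c (t x)) x' := by
      intro m o hm hdis hun hcard hval
      refine ⟨fun _ => m, fun _ => false, fun _ => P.vars u \ P.vars o, ?_, ?_⟩
      · intro b
        refine ⟨hm, ?_, sdiff_subset, ?_⟩
        · intro j hj
          rw [mem_sdiff, hun]
          exact ⟨mem_union_left _ hj, fun hjo => (disjoint_left.mp hdis) hj hjo⟩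
        · have h1 : P.vars o ⊆ P.vars u := by rw [hun]; exact subset_union_right
          have h2 : (P.vars u \ P.vars o).card = (P.vars u).card - (P.vars o).card :=
            card_sdiff_of_subset h1
          have h3 : (P.vars u).card = (P.vars m).card + (P.vars o).card := by
            rw [hun, card_union_of_disjoint hdis]
          show a ≤ (P.vars u \ P.vars o).card
          omega
      · intro x
        obtain ⟨A, B, hAB⟩ := hval x
        refine ⟨A, B, fun x' h => ⟨rfl, ?_⟩⟩
        apply hAB
        apply pthL_dep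
        intro j hj
        exact h j (by simp [hj])
    rcases le_total (P.vars p).card (P.vars q).card with h | h
    · apply key q p hq hd.symm (by rw [hv, union_comm]) h
      intro x
      refine ⟨α + β * P.val p x, γ + δ * P.val p x, fun x' h' => ?_⟩
      rw [hx, h']; ring
    · apply key p q hp hd hv h
      intro x
      refine ⟨α + γ * P.val q x, β + δ * P.val q x, fun x' h' => ?_⟩
      rw [hx, h']; ring

private theorem pthL_super {n : ℕ} (V T : Finset (Fin n)) (a E : ℕ) (hVT : V ⊆ T) (hV : V.card ≤ E)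
    (haT : a ≤ T.card) (haE : a ≤ E) :
    ∃ R, V ⊆ R ∧ R ⊆ T ∧ a ≤ R.card ∧ R.card ≤ E := by
  obtain ⟨R, h1, h2, h3⟩ := exists_subsuperset_card_eq hVT (le_max_left V.card a)
    (max_le (card_le_card hVT) haT)
  exact ⟨R, h1, h2, by rw [h3]; exact le_max_right _ _, by rw [h3]; exact max_le hV haE⟩

/-- [PthL] -/
theorem thm_PthL : St_PthL := by
  classical
  intro K _ n s m P r a E haE hEn
  have haE' : a ≤ E := by omega
  have hstep : ∀ u : Fin s, ∃ (c : Bool → Fin s) (t : Pt n → Bool) (T : Bool → Finset (Fin n)),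
      E < (P.vars u).card → ¬ Cells m (P.val u) →
      ((∀ b, c b < u ∧ P.vars (c b) ⊆ T b ∧ T b ⊆ P.vars u ∧ a ≤ (T b).card) ∧
      ∀ x, ∃ α β : K, ∀ x', Off (T (t x)) x x' →
        t x' = t x ∧ P.val u x' = α + β * P.val (c (t x)) x') := by
    intro u
    by_cases hu : E < (P.vars u).card
    · by_cases hc : Cells m (P.val u)
      · exact ⟨fun _ => u, fun _ => false, fun _ => ∅, fun _ h => absurd hc h⟩
      · obtain ⟨c, t, T, h⟩ := pthL_step P a E haE u hu hc
        exact ⟨c, t, T, fun _ _ => h⟩
    · exact ⟨fun _ => u, fun _ => false, fun _ => ∅, fun h => absurd h hu⟩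
  choose c t T hT using hstep
  have hR : ∀ (w : Fin s) (b : Bool), ∃ R : Finset (Fin n), E < (P.vars w).card →
      ¬ Cells m (P.val w) → (P.vars (c w b)).card ≤ E →
      P.vars (c w b) ⊆ R ∧ R ⊆ T w b ∧ a ≤ R.card ∧ R.card ≤ E := by
    intro w b
    by_cases hw : E < (P.vars w).card
    · by_cases hC : Cells m (P.val w)
      · exact ⟨∅, fun _ h => absurd hC h⟩
      · by_cases hc : (P.vars (c w b)).card ≤ E
        · obtain ⟨_, h2, _, h4⟩ := (hT w hw hC).1 b
          obtain ⟨R, hR⟩ := pthL_super (P.vars (c w b)) (T w b) a E h2 hc h4 haE'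
          exact ⟨R, fun _ _ _ => hR⟩
        · exact ⟨∅, fun _ _ h => absurd h hc⟩
    · exact ⟨∅, fun h => absurd h hw⟩
  choose R hR using hR
  -- the sets and the functions of the labels
  obtain ⟨RR, hRR0, hRR1⟩ : ∃ RR : Fin s × Option Bool → Finset (Fin n),
      (∀ w, RR (w, none) = P.vars w) ∧ ∀ w b, RR (w, some b) = R w b :=
    ⟨fun l => l.2.elim (P.vars l.1) (R l.1), fun _ => rfl, fun _ _ => rfl⟩
  obtain ⟨gg, hgg0, hgg1⟩ : ∃ gg : Fin s × Option Bool → Pt n → K,
      (∀ w, gg (w, none) = P.val w) ∧ ∀ w b, gg (w, some b) = P.val (c w b) :=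
    ⟨fun l => l.2.elim (P.val l.1) (fun b => P.val (c l.1 b)), fun _ => rfl, fun _ _ => rfl⟩
  obtain ⟨Gd, hGd⟩ : ∃ Gd : Fin s × Option Bool → Prop, ∀ l, Gd l ↔
      (E < (P.vars l.1).card ∧ ((l.2 = none ∧ Cells m (P.val l.1)) ∨
        ∃ b, l.2 = some b ∧ ¬ Cells m (P.val l.1) ∧ (P.vars (c l.1 b)).card ≤ E)) :=
    ⟨_, fun _ => Iff.rfl⟩
  have hGd2 : ∀ l, Gd l → RR l ⊆ P.vars l.1 ∧ a ≤ (RR l).card ∧
      ((RR l).card ≤ E ∨ Cells m (gg l)) ∧
      ∀ x x' : Pt n, (∀ i ∈ RR l, x i = x' i) → gg l x = gg l x' := by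
    rintro ⟨w, o⟩ hl
    obtain ⟨h1, h2⟩ := (hGd _).1 hl
    rcases h2 with ⟨h2, h3⟩ | ⟨b, h2, h3, h4⟩
    · have h5 : o = none := h2
      subst h5
      rw [hRR0, hgg0]
      exact ⟨Subset.refl _, by have h6 : E < (P.vars w).card := h1
                               omega, Or.inr h3, fun x x' h => pthL_dep P w x x' h⟩
    · have h5 : o = some b := h2
      subst h5
      rw [hRR1, hgg1]
      obtain ⟨k1, k2, k3, k4⟩ := hR w b h1 h3 h4
      exact ⟨k2.trans ((hT w h1 h3).1 b).2.2.1, k3, Or.inl k4,
        fun x x' h => pthL_dep P _ x x' fun i hi => h i (k1 hi)⟩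
  have main : ∀ u : Fin s, E < (P.vars u).card → ∃ lab : Pt n → Fin s × Option Bool, ∀ x,
      Gd (lab x) ∧ P.vars (lab x).1 ⊆ P.vars u ∧
      ∃ α β : K, ∀ x', Off (RR (lab x)) x x' →
        lab x' = lab x ∧ P.val u x' = α + β * gg (lab x) x' := by
    intro u
    induction u using WellFoundedLT.induction with
    | ind u ih =>
      intro hu
      by_cases hC : Cells m (P.val u)
      · refine ⟨fun _ => (u, none), fun x => ⟨(hGd _).2 ⟨hu, Or.inl ⟨rfl, hC⟩⟩, Subset.refl _,
          0, 1, fun x' _ => ⟨rfl, ?_⟩⟩⟩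
        rw [hgg0]
        ring
      obtain ⟨hT1, hT2⟩ := hT u hu hC
      have hlab : ∀ b : Bool, ∃ lab : Pt n → Fin s × Option Bool,
          E < (P.vars (c u b)).card → ∀ x,
          Gd (lab x) ∧ P.vars (lab x).1 ⊆ P.vars (c u b) ∧
          ∃ α β : K, ∀ x', Off (RR (lab x)) x x' →
            lab x' = lab x ∧ P.val (c u b) x' = α + β * gg (lab x) x' := by
        intro b
        by_cases h : E < (P.vars (c u b)).card
        · obtain ⟨lab, hl⟩ := ih (c u b) (hT1 b).1 h
          exact ⟨lab, fun _ => hl⟩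
        · exact ⟨fun _ => (u, none), fun h' => absurd h' h⟩
      choose L hL using hlab
      refine ⟨fun x => if (P.vars (c u (t u x))).card ≤ E then (u, some (t u x))
        else L (t u x) x, ?_⟩
      intro x
      by_cases hc : (P.vars (c u (t u x))).card ≤ E
      · simp only [hc, if_true]
        obtain ⟨α, β, hαβ⟩ := hT2 x
        refine ⟨(hGd _).2 ⟨hu, Or.inr ⟨t u x, rfl, hC, hc⟩⟩, Subset.refl _, α, β, ?_⟩
        intro x' hx'
        rw [hRR1] at hx'
        have hoff : Off (T u (t u x)) x x' := by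
          intro i hi
          exact hx' i (fun hiR => hi ((hR u (t u x) hu hC hc).2.1 hiR))
        obtain ⟨h1, h2⟩ := hαβ x' hoff
        refine ⟨?_, ?_⟩
        · simp only [h1, hc, if_true]
        · rw [hgg1]
          exact h2
      · simp only [hc, if_false]
        have hc' : E < (P.vars (c u (t u x))).card := not_le.mp hc
        obtain ⟨l1, l2, α', β', hl⟩ := hL (t u x) hc' x
        obtain ⟨α, β, hαβ⟩ := hT2 x
        refine ⟨l1, l2.trans ((hT1 (t u x)).2.1.trans (hT1 (t u x)).2.2.1),
          α + β * α', β * β', ?_⟩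
        intro x' hx'
        have hoff : Off (T u (t u x)) x x' := by
          intro i hi
          refine hx' i (fun hiR => hi ?_)
          exact (hT1 (t u x)).2.1 (l2 ((hGd2 _ l1).1 hiR))
        obtain ⟨h1, h2⟩ := hαβ x' hoff
        obtain ⟨h3, h4⟩ := hl x' hx'
        refine ⟨?_, ?_⟩
        · simp only [h1, hc, if_false]
          exact h3
        · rw [h2, h4]; ring
  by_cases hr : E < (P.vars r).card
  · obtain ⟨lab, hlab⟩ := main r hr
    refine ⟨fun x => some (lab x), fun l => l.elim ∅ RR,
      fun l => l.elim (fun _ => 0) (fun e => if Gd e then gg e else fun _ => 0), ?_, ?_⟩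
    · rintro (_ | l) x x' h
      · rfl
      · simp only [Option.elim_some] at h ⊢
        by_cases hh : Gd l
        · simp only [hh, if_true]
          exact (hGd2 l hh).2.2.2 x x' h
        · simp only [hh, if_false]
    · intro x
      obtain ⟨l1, _, α, β, hl⟩ := hlab x
      have h := hGd2 _ l1
      refine ⟨h.2.1, ?_, α, β, ?_⟩
      · simp only [Option.elim_some, l1, if_true]
        exact h.2.2.1
      · intro x' hx'
        obtain ⟨h1, h2⟩ := hl x' hx'
        refine ⟨by simp only [h1], ?_⟩
        rw [h2]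
        simp only [Option.elim_some, l1, if_true]
  · obtain ⟨R0, h1, _, h3, h4⟩ := pthL_super (P.vars r) univ a E (subset_univ _) (not_lt.mp hr)
      (by rw [card_univ, Fintype.card_fin]; omega) haE'
    refine ⟨fun _ => none, fun _ => R0, fun l => l.elim (P.val r) (fun _ _ => 0), ?_, ?_⟩
    · rintro (_ | e) x x' h
      · exact pthL_dep P _ x x' (fun i hi => h i (h1 hi))
      · rfl
    · intro x
      refine ⟨h3, Or.inl h4, 0, 1, fun x' _ => ⟨rfl, ?_⟩⟩
      simp

end Pool.Agent.STS
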