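import Pool.Agent.STS.Defs

/-!
# Closed sets of models are small (helper35)
-/

set_option autoImplicit false

namespace Pool.Agent.STS

open Finset Pool.Agent.STH Pool.Agent.STD

/-- the labels -/
private abbrev Scl_L (r : ℕ) := (Fin r → Bool) × (Fin r → Bool)

private lemma Scl_flip {r : ℕ} (P Q : Scl_L r → Prop) [DecidablePred P] [DecidablePred Q]
    (σ : Scl_L r → Scl_L r) (hσ : ∀ l, σ (σ l) = l) (h : ∀ l, P l → Q l ∨ Q (σ l)) :
    (univ.filter P).card ≤ 2 * (univ.filter Q).card := by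
  have h1 : univ.filter P ⊆ univ.filter Q ∪ (univ.filter Q).image σ := by
    intro l hl
    rw [mem_filter] at hl
    rw [mem_union]
    rcases h l hl.2 with h2 | h2
    · left
      rw [mem_filter]
      exact ⟨mem_univ _, h2⟩
    · right
      rw [mem_image]
      exact ⟨σ l, by rw [mem_filter]; exact ⟨mem_univ _, h2⟩, hσ l⟩
  calc (univ.filter P).card ≤ _ := card_le_card h1
    _ ≤ _ := card_union_le _ _
    _ ≤ (univ.filter Q).card + (univ.filter Q).card := Nat.add_le_add_left card_image_le _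
    _ = _ := by ring

/-- change of one coordinate -/
private def Scl_f {r : ℕ} (i : Fin r) (u : Fin r → Bool) : Fin r → Bool :=
  Function.update u i (!u i)

private lemma Scl_ff {r : ℕ} (i : Fin r) (u : Fin r → Bool) : Scl_f i (Scl_f i u) = u := by
  funext j
  unfold Scl_f
  by_cases h : j = i
  · subst h; simp
  · simp [Function.update_of_ne h]

private lemma Scl_f_self {r : ℕ} (i : Fin r) (u : Fin r → Bool) : Scl_f i u i = !u i := by
  simp [Scl_f]

private lemma Scl_f_ne {r : ℕ} {i j : Fin r} (h : j ≠ i) (u : Fin r → Bool) :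
    Scl_f i u j = u j := by
  simp [Scl_f, Function.update_of_ne h]

private lemma Scl_card (r : ℕ) : Fintype.card (Scl_L r) = 4 ^ r := by
  rw [Fintype.card_prod, Fintype.card_fun, Fintype.card_fin, Fintype.card_bool, ← mul_pow]
  norm_num

/-- many labels distinguish two different pairs -/
private lemma Scl_diff1 {r : ℕ} (φ : Bool → Bool → Bool) (e : Bool)
    (h1 : ∀ b, φ b e ≠ φ (!b) e) (i i' j j' : Fin r) (hi : i ≠ i') :
    4 ^ r ≤ 4 * (univ.filter fun l : Scl_L r => φ (l.1 i) (l.2 j) ≠ φ (l.1 i') (l.2 j')).card := by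
  have e1 : (univ.filter fun _ : Scl_L r => True).card ≤
      2 * (univ.filter fun l : Scl_L r => l.2 j = e).card := by
    refine Scl_flip _ _ (fun l => (l.1, Scl_f j l.2)) (fun l => by simp [Scl_ff]) ?_
    intro l _
    rcases eq_or_ne (l.2 j) e with h | h
    · exact Or.inl h
    · right
      show Scl_f j l.2 j = e
      rw [Scl_f_self]
      revert h
      cases l.2 j <;> cases e <;> simp
  have e2 : (univ.filter fun l : Scl_L r => l.2 j = e).card ≤
      2 * (univ.filter fun l : Scl_L r => φ (l.1 i) (l.2 j) ≠ φ (l.1 i') (l.2 j')).card := by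
    refine Scl_flip _ _ (fun l => (Scl_f i l.1, l.2)) (fun l => by simp [Scl_ff]) ?_
    intro l hl
    by_contra hc
    push Not at hc
    obtain ⟨hc1, hc2⟩ := hc
    simp only [Scl_f_self, Scl_f_ne (Ne.symm hi)] at hc2
    rw [← hc1, hl] at hc2
    exact h1 _ hc2.symm
  rw [filter_true, card_univ, Scl_card] at e1
  omega

private lemma Scl_diff2 {r : ℕ} (φ : Bool → Bool → Bool) (e : Bool)
    (h1 : ∀ b, φ b e ≠ φ (!b) e) (h2 : ∀ c, φ e c ≠ φ e (!c)) (p p' : Fin r × Fin r)
    (hp : p ≠ p') :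
    4 ^ r ≤ 4 * (univ.filter fun l : Scl_L r =>
      φ (l.1 p.1) (l.2 p.2) ≠ φ (l.1 p'.1) (l.2 p'.2)).card := by
  by_cases h : p.1 = p'.1
  · have hj : p.2 ≠ p'.2 := fun h' => hp (Prod.ext h h')
    have h3 := Scl_diff1 (fun b c => φ c b) e h2 p.2 p'.2 p.1 p'.1 hj
    refine h3.trans (le_of_eq ?_)
    congr 1
    refine card_bij' (fun l _ => l.swap) (fun l _ => l.swap) ?_ ?_ (fun l _ => by simp)
      (fun l _ => by simp)
    · intro l hl
      rw [mem_filter] at hl ⊢
      exact ⟨mem_univ _, hl.2⟩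
    · intro l hl
      rw [mem_filter] at hl ⊢
      exact ⟨mem_univ _, hl.2⟩
  · exact Scl_diff1 φ e h1 _ _ _ _ h

/-- the four operations -/
private def Scl_op : Fin 4 → Bool → Bool → Bool → Bool
  | 0, _, b, c => b && c
  | 1, _, b, c => b || c
  | 2, a, b, c => (a && b) || (a && c) || (b && c)
  | 3, a, b, c => a ^^ b ^^ c

private lemma Scl_code {n : ℕ} (t : Fin n → Bool → Bool → Bool → Bool) (h : IsSch t) :
    ∃ κ : Fin n → Fin 4, ∀ i a b c, t i a b c = Scl_op (κ i) a b c := by
  have h1 : ∀ i, ∃ κ : Fin 4, ∀ a b c, t i a b c = Scl_op κ a b c := by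
    intro i
    rcases h i with h | h | h | h
    · exact ⟨0, h⟩
    · exact ⟨1, h⟩
    · exact ⟨2, h⟩
    · exact ⟨3, h⟩
  choose κ hκ using h1
  exact ⟨κ, hκ⟩

private lemma Scl_e (κ : Fin 4) : ∃ e : Bool, (∀ b, Scl_op κ false b e ≠ Scl_op κ false (!b) e) ∧
    (∀ c, Scl_op κ false e c ≠ Scl_op κ false e (!c)) := by
  fin_cases κ
  · exact ⟨true, by decide, by decide⟩
  · exact ⟨false, by decide, by decide⟩
  · exact ⟨true, by decide, by decide⟩
  · exact ⟨true, by decide, by decide⟩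

/-- points as sets -/
private def Scl_s {n : ℕ} (x : Pt n) : Finset (Fin n) := univ.filter fun i => x i = true

private lemma Scl_mem {n : ℕ} (x : Pt n) (i : Fin n) : i ∈ Scl_s x ↔ x i = true := by
  simp [Scl_s]

private lemma Scl_inj {n : ℕ} : Function.Injective (Scl_s (n := n)) := by
  intro x y h
  funext i
  have := Scl_mem x i
  rw [h, Scl_mem] at this
  cases hx : x i <;> cases hy : y i <;> simp_all

/-- a large family shatters a large set -/
private lemma Scl_shat {n d : ℕ} (B : ℝ) (hB : BallLe n d B) (X : Finset (Pt n))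
    (h : B < (X.card : ℝ)) : ∃ D : Finset (Fin n), d ≤ D.card ∧
      ∀ T ⊆ D, ∃ x ∈ X, ∀ i ∈ D, x i = true ↔ i ∈ T := by
  classical
  by_contra hcon
  push Not at hcon
  have h1 : X.card = (X.image Scl_s).card := (card_image_of_injective _ Scl_inj).symm
  have h2 : (X.image Scl_s).card ≤ (X.image Scl_s).shatterer.card := card_le_card_shatterer _
  have h3 : (X.image Scl_s).shatterer ⊆ univ.filter fun D : Finset (Fin n) => D.card < d := by
    intro D hD
    rw [mem_shatterer] at hD
    rw [mem_filter]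
    refine ⟨mem_univ _, ?_⟩
    by_contra hc
    obtain ⟨T, hT, hx⟩ := hcon D (not_lt.1 hc)
    obtain ⟨u, hu, hDu⟩ := hD hT
    obtain ⟨x, hxX, rfl⟩ := mem_image.1 hu
    obtain ⟨i, hi, hne⟩ := hx x hxX
    have h4 : i ∈ T ↔ x i = true := by
      rw [← hDu, mem_inter, Scl_mem]
      exact ⟨fun h => h.2, fun h => ⟨hi, h⟩⟩
    rcases hne with ⟨a, b⟩ | ⟨a, b⟩
    · exact b (h4.2 a)
    · exact a (h4.1 b)
  have h4 : (univ.filter fun D : Finset (Fin n) => D.card < d).card =
      Nat.card {x' : Pt n // dist (fun _ => false) x' < d} := by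
    rw [Nat.card_eq_fintype_card, Fintype.card_subtype]
    symm
    refine card_bij (fun x _ => Scl_s x) ?_ (fun x _ y _ hxy => Scl_inj hxy) ?_
    · intro x hx
      rw [mem_filter] at hx ⊢
      refine ⟨mem_univ _, ?_⟩
      have : dist (fun _ => false) x = (Scl_s x).card := by
        unfold Pool.Agent.STH.dist Scl_s
        congr 1
        ext i
        simp
      rw [← this]
      exact hx.2
    · intro D hD
      rw [mem_filter] at hD
      have hs : Scl_s (fun i => decide (i ∈ D)) = D := by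
        ext i
        simp [Scl_s]
      refine ⟨fun i => decide (i ∈ D), ?_, hs⟩
      rw [mem_filter]
      refine ⟨mem_univ _, ?_⟩
      have : dist (fun _ => false) (fun i => decide (i ∈ D)) =
          (Scl_s (fun i => decide (i ∈ D))).card := by
        unfold Pool.Agent.STH.dist Scl_s
        congr 1
        ext i
        simp
      rw [this, hs]
      exact hD.2
  have h5 := hB fun _ => false
  have h6 : X.card ≤ Nat.card {x' : Pt n // dist (fun _ => false) x' < d} := by
    rw [← h4, h1]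
    exact h2.trans (card_le_card h3)
  have h7 : (X.card : ℝ) ≤ ((Nat.card {x' : Pt n // dist (fun _ => false) x' < d} : ℕ) : ℝ) := by
    exact_mod_cast h6
  linarith

/-- **Closed sets of models are small.** -/
theorem thm_Scl : St_Scl := by
  classical
  intro n r t d F B S hB hF hd h4d hBS op hop X hX hcl
  by_contra hc
  have hBX : B < (X.card : ℝ) := by
    have : (S : ℝ) < X.card := by exact_mod_cast not_le.1 hc
    linarith
  obtain ⟨D₀, hD₀, hsh⟩ := Scl_shat B hB X hBX
  obtain ⟨κ, hκ⟩ := Scl_code op hop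
  obtain ⟨κ₀, -, hκ₀⟩ := exists_le_card_fiber_of_mul_le_card_of_maps_to
    (s := D₀) (t := (univ : Finset (Fin 4))) (f := κ) (n := d / 4) (fun _ _ => mem_univ _)
    ⟨0, mem_univ _⟩ (by
      rw [card_univ, Fintype.card_fin]
      omega)
  obtain ⟨D₁, hD₁⟩ : ∃ D₁, D₁ = D₀.filter fun i => κ i = κ₀ := ⟨_, rfl⟩
  rw [← hD₁] at hκ₀
  obtain ⟨e, he1, he2⟩ := Scl_e κ₀
  -- the labels
  have h4q : 4 ^ r ≤ d / 4 := by
    rw [Nat.le_div_iff_mul_le (by norm_num)]
    rw [pow_succ] at h4d
    exact h4d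
  have h8t : 8 * t ≤ d / 4 := by omega
  obtain ⟨m, hm⟩ : ∃ m, m = d / 4 / 4 ^ r := ⟨_, rfl⟩
  have hN : 0 < 4 ^ r := by positivity
  have hm1 : 4 ^ r * m ≤ d / 4 := by
    rw [hm]
    exact Nat.mul_div_le _ _
  have hm2 : d / 4 ≤ 2 * (4 ^ r * m) := by
    have h1 : 1 ≤ m := by
      rw [hm]
      exact (Nat.one_le_div_iff hN).2 h4q
    have h2 : d / 4 < 4 ^ r * (m + 1) := by
      rw [hm]
      exact Nat.lt_mul_div_succ _ hN
    have h3 : 4 ^ r * 1 ≤ 4 ^ r * m := Nat.mul_le_mul_left _ h1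
    rw [mul_add] at h2
    omega
  obtain ⟨g, hg⟩ : ∃ g : Scl_L r × Fin m → Fin n, Function.Injective g ∧ ∀ l, g l ∈ D₁ := by
    have h1 : Fintype.card (Scl_L r × Fin m) ≤ Fintype.card D₁ := by
      rw [Fintype.card_prod, Scl_card, Fintype.card_fin, Fintype.card_coe]
      exact hm1.trans hκ₀
    obtain ⟨f⟩ := Function.Embedding.nonempty_of_card_le h1
    exact ⟨fun l => (f l).1, fun a b h => f.injective (Subtype.ext h), fun l => (f l).2⟩
  have hg2 : ∀ l, g l ∈ D₀ := fun l => by
    have := hg.2 l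
    rw [hD₁, mem_filter] at this
    exact this.1
  have hg3 : ∀ l, κ (g l) = κ₀ := fun l => by
    have := hg.2 l
    rw [hD₁, mem_filter] at this
    exact this.2
  -- the points
  have hpt : ∀ v : Scl_L r → Bool, ∃ x ∈ X, ∀ l, x (g l) = v l.1 := by
    intro v
    obtain ⟨x, hx, hv⟩ := hsh ((univ.filter fun l : Scl_L r × Fin m => v l.1 = true).image g) (by
      intro i hi
      obtain ⟨l, _, rfl⟩ := mem_image.1 hi
      exact hg2 l)
    refine ⟨x, hx, fun l => ?_⟩
    have h1 := hv (g l) (hg2 l)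
    have h2 : g l ∈ (univ.filter fun l : Scl_L r × Fin m => v l.1 = true).image g ↔
        v l.1 = true := by
      rw [mem_image]
      constructor
      · rintro ⟨l', hl', h⟩
        rw [hg.1 h, mem_filter] at hl'
        exact hl'.2
      · intro h
        exact ⟨l, by rw [mem_filter]; exact ⟨mem_univ _, h⟩, rfl⟩
    rw [h2] at h1
    cases h3 : x (g l) <;> cases h4 : v l.1 <;> simp_all
  obtain ⟨x₀, hx₀, hv₀⟩ := hpt fun _ => false
  have hx : ∀ i : Fin r, ∃ x ∈ X, ∀ l, x (g l) = l.1.1 i := fun i => hpt fun l => l.1 i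
  have hy : ∀ j : Fin r, ∃ x ∈ X, ∀ l, x (g l) = l.1.2 j := fun j => hpt fun l => l.2 j
  choose x hxX hxv using hx
  choose y hyX hyv using hy
  obtain ⟨p, hp⟩ := hF op hop x₀ x y (by
    intro p p' hpp
    have h1 := Scl_diff2 (Scl_op κ₀ false) e he1 he2 p p' hpp
    obtain ⟨Q, hQ⟩ : ∃ Q : Finset (Scl_L r), Q = univ.filter fun l : Scl_L r =>
      Scl_op κ₀ false (l.1 p.1) (l.2 p.2) ≠ Scl_op κ₀ false (l.1 p'.1) (l.2 p'.2) := ⟨_, rfl⟩
    rw [← hQ] at h1
    have h2 : (Q ×ˢ (univ : Finset (Fin m))).card ≤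
        dist (ap op x₀ (x p.1) (y p.2)) (ap op x₀ (x p'.1) (y p'.2)) := by
      unfold Pool.Agent.STH.dist
      refine card_le_card_of_injOn g ?_ hg.1.injOn
      intro l hl
      rw [mem_coe, mem_product, hQ, mem_filter] at hl
      rw [mem_coe, mem_filter]
      refine ⟨mem_univ _, ?_⟩
      unfold ap
      rw [hκ, hκ, hg3, hv₀, hxv, hyv, hxv, hyv]
      exact hl.1.2
    rw [card_product, card_univ, Fintype.card_fin] at h2
    have h3 : 4 ^ r * m ≤ 4 * (Q.card * m) := by
      calc 4 ^ r * m ≤ (4 * Q.card) * m := Nat.mul_le_mul_right _ h1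
        _ = _ := by ring
    omega)
  exact hp (hX _ (hcl _ hx₀ _ (hxX _) _ (hyX _)))

end Pool.Agent.STS
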