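import Pool.Agent.STS.Defs

/-!
# STS, module SumL: the lower bound from (Q), by summation over the labels (helper9, after
STH/Sum.lean of helper31)
-/

set_option autoImplicit false

namespace Pool.Agent.STS

open Finset Pool.Agent.STH Pool.Agent.STD

private theorem SumL_fib {α β : Type} [Fintype α] [Fintype β] [DecidableEq β] (lab : α → β)
    (p : α → Prop) :
    ((Nat.card {x : α // p x} : ℕ) : ℝ) = ∑ l, ((Nat.card {x : α // lab x = l ∧ p x} : ℕ) : ℝ) := by
  classical
  rw [← Nat.cast_sum]
  congr 1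
  rw [Nat.card_eq_fintype_card, Fintype.card_subtype,
    Finset.card_eq_sum_card_fiberwise (f := lab) (t := Finset.univ) (fun x _ => Finset.mem_univ _)]
  refine Finset.sum_congr rfl fun l _ => ?_
  rw [Nat.card_eq_fintype_card, Fintype.card_subtype, Finset.filter_filter]
  congr 1
  ext x
  simp only [Finset.mem_filter, Finset.mem_univ, true_and]
  exact and_comm

/-- **[SumL]** (helper9) -/
theorem thm_SumL (h1 : STH.St_Cyl) (h2 : St_CylL) (h3 : St_PthL) : St_SumL := by
  intro K _ n s m P r F a d E S Y B hY hB haE hEn hQ hBl hS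
  classical
  obtain ⟨lab, R, g, hg, hx⟩ := h3 K n s m P r a E haE hEn
  have hB0 : (0 : ℝ) ≤ B := zero_le_one.trans hB
  have key : ∀ l : Option (Fin s × Option Bool),
      ((Nat.card {x : Pt n // lab x = l ∧ F x} : ℕ) : ℝ) ≤
        ((Nat.card {x : Pt n // lab x = l ∧
          (F x ∧ P.val r x ≠ 1 ∨ ¬ F x ∧ P.val r x ≠ 0)} : ℕ) : ℝ)
          + 2 * ((Nat.card {x : Pt n // lab x = l ∧ True} : ℕ) : ℝ) * Y
          + 8 * B * (2 ^ E + S * 2 ^ m) := by
    intro l
    by_cases hl : ∃ x0, lab x0 = l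
    · obtain ⟨x0, hx0⟩ := hl
      have h3 := hx x0
      rw [hx0] at h3
      have hD1 : ∀ x x' : Pt n, lab x = l → Off (R l) x x' → lab x' = l := by
        intro x x' hD hO
        have h5 := hx x
        rw [hD] at h5
        obtain ⟨-, -, α, β, h6⟩ := h5
        exact (h6 x' hO).1
      have hD2 : ∀ x : Pt n, lab x = l →
          ∃ α β : K, ∀ x', Off (R l) x x' → P.val r x' = α + β * g l x' := by
        intro x hD
        have h5 := hx x
        rw [hD] at h5
        obtain ⟨-, -, α, β, h6⟩ := h5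
        exact ⟨α, β, fun x' hO => (h6 x' hO).2⟩
      simp only [and_true]
      rcases h3.2.1 with hR | hC
      · have h4 := h1 K n F a d Y B hY hB hQ hBl (R l) (fun x => lab x = l) (P.val r) (g l) h3.1
          hD1 (fun x x' h => hg l x x' h) hD2
        have h5 : (2 : ℝ) ^ (R l).card ≤ 2 ^ E := pow_le_pow_right₀ one_le_two hR
        have h6 : 8 * B * 2 ^ (R l).card ≤ 8 * B * (2 ^ E + S * 2 ^ m) := by
          apply mul_le_mul_of_nonneg_left _ (by positivity)
          have h7 : (0 : ℝ) ≤ S * 2 ^ m := by positivity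
          linarith
        linarith
      · have h4 := h2 K n F a d m S Y B hY hB hQ hBl hS (R l) (fun x => lab x = l) (P.val r) (g l)
          h3.1 hD1 (fun x x' h => hg l x x' h) hC hD2
        have h6 : 8 * B * S * 2 ^ m ≤ 8 * B * (2 ^ E + S * 2 ^ m) := by
          have h7 : (0 : ℝ) ≤ 8 * B * 2 ^ E := by positivity
          have h8 : 8 * B * ((2 : ℝ) ^ E + S * 2 ^ m) = 8 * B * 2 ^ E + 8 * B * S * 2 ^ m := by ring
          rw [h8]
          linarith
        linarith
    · have h3 : Nat.card {x : Pt n // lab x = l ∧ F x} = 0 := by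
        rw [Nat.card_eq_zero]
        exact Or.inl ⟨fun x => hl ⟨x.1, x.2.1⟩⟩
      rw [h3, Nat.cast_zero]
      positivity
  have h3 := Finset.sum_le_sum fun l
    (_ : l ∈ (Finset.univ : Finset (Option (Fin s × Option Bool)))) => key l
  rw [Finset.sum_add_distrib, Finset.sum_add_distrib, ← SumL_fib lab F,
    ← SumL_fib lab fun x => F x ∧ P.val r x ≠ 1 ∨ ¬ F x ∧ P.val r x ≠ 0] at h3
  have h4 : ∑ l, 2 * ((Nat.card {x : Pt n // lab x = l ∧ True} : ℕ) : ℝ) * Y =
      2 * 2 ^ n * Y := by
    rw [← Finset.sum_mul, ← Finset.mul_sum, ← SumL_fib lab fun _ => True]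
    congr 2
    rw [Nat.card_eq_fintype_card, Fintype.card_subtype, Finset.filter_true, Finset.card_univ]
    simp
  have h5 : ∑ _l : Option (Fin s × Option Bool), 8 * B * ((2 : ℝ) ^ E + S * 2 ^ m) =
      8 * B * (2 ^ E + S * 2 ^ m) * (3 * s + 1) := by
    rw [Finset.sum_const, Finset.card_univ, nsmul_eq_mul]
    simp only [Fintype.card_option, Fintype.card_prod, Fintype.card_fin, Fintype.card_bool]
    push_cast
    ring
  rw [h4, h5] at h3
  exact h3

end Pool.Agent.STS
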