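import Pool.Agent.STS.Defs
import Pool.Agent.STD.Wld

/-!
# d-DNNFs with affine cells in the leaves near `F`
-/

set_option autoImplicit false

namespace Pool.Agent.STS

open Finset Pool.Agent.STH Pool.Agent.STD

namespace DetS

open Pool.Agent.STD.Det (w w_empty w_union w_le_card w_eq w_le_of sum_update off_mono')

variable {n m s : ℕ}

/-- the value of a node depends on its variables only -/
lemma dep (D : SDdnnf n m s) (v : Fin s) : ∀ x x', (∀ i ∈ D.vars v, x i = x' i) →
    (D.val v x ↔ D.val v x') := by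
  induction v using WellFoundedLT.induction with
  | ind v ih =>
    rcases D.ok v with h | ⟨a, b, ha, hb, _, hv, h⟩ | ⟨a, b, ha, hb, hv, h, _⟩
    · exact h.2
    · intro x x' h1
      rw [h, h, ih a ha x x' (fun i hi => h1 i (by rw [hv]; exact mem_union_left _ hi)),
        ih b hb x x' (fun i hi => h1 i (by rw [hv]; exact mem_union_right _ hi))]
    · intro x x' h1
      rw [h, h, ih a ha x x' (fun i hi => h1 i (by rw [hv]; exact mem_union_left _ hi)),
        ih b hb x x' (fun i hi => h1 i (by rw [hv]; exact mem_union_right _ hi))]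

/-- a union of contexts of the node `v` -/
def Cd (D : SDdnnf n m s) (v : Fin s) (T : Finset (Pt n)) : Prop :=
  ∀ x ∈ T, D.val v x ∧ ∀ y, Off (D.vars v) x y → D.val v y → y ∈ T

open Classical in
/-- the points accepted by a node -/
noncomputable def Av (D : SDdnnf n m s) (v : Fin s) : Finset (Pt n) := univ.filter (D.val v)

lemma mem_Av {D : SDdnnf n m s} {v : Fin s} {x : Pt n} : x ∈ Av D v ↔ D.val v x := by
  classical
  simp [Av]

/-- the number of accepted restrictions -/
noncomputable def al (D : SDdnnf n m s) (v : Fin s) : ℕ := cw (D.vars v) (Av D v)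

/-- a family of disjoint unions of contexts -/
structure Good (D : SDdnnf n m s) (S : ℕ) (T : Fin s → Finset (Pt n)) : Prop where
  cd : ∀ v, Cd D v (T v)
  disj : ∀ v v', v ≠ v' → Disjoint (T v) (T v')
  big : ∀ v, (T v).Nonempty → S < al D v

lemma good_remove {D : SDdnnf n m s} {S : ℕ} {T : Fin s → Finset (Pt n)} (h : Good D S T)
    (u : Fin s) : Good D S (Function.update T u ∅) := by
  refine ⟨?_, ?_, ?_⟩
  · intro v
    rcases eq_or_ne v u with rfl | hv
    · rw [Function.update_self]
      intro x hx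
      simp at hx
    · rw [Function.update_of_ne hv]
      exact h.cd v
  · intro v v' hvv
    rcases eq_or_ne v u with rfl | hv
    · rw [Function.update_self]
      exact disjoint_empty_left _
    · rcases eq_or_ne v' u with rfl | hv'
      · rw [Function.update_self]
        exact disjoint_empty_right _
      · rw [Function.update_of_ne hv, Function.update_of_ne hv']
        exact h.disj v v' hvv
  · intro v
    rcases eq_or_ne v u with rfl | hv
    · rw [Function.update_self]
      simp
    · rw [Function.update_of_ne hv]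
      exact h.big v

lemma good_add {D : SDdnnf n m s} {S : ℕ} {T : Fin s → Finset (Pt n)} (h : Good D S T)
    (c : Fin s) (Q : Finset (Pt n)) (hQ : Cd D c Q) (hb : Q.Nonempty → S < al D c)
    (hd : ∀ v, Disjoint (T v) Q) : Good D S (Function.update T c (T c ∪ Q)) := by
  refine ⟨?_, ?_, ?_⟩
  · intro v
    rcases eq_or_ne v c with rfl | hv
    · rw [Function.update_self]
      intro x hx
      rcases mem_union.1 hx with hx | hx
      · exact ⟨(h.cd v x hx).1, fun y h1 h2 => mem_union_left _ ((h.cd v x hx).2 y h1 h2)⟩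
      · exact ⟨(hQ x hx).1, fun y h1 h2 => mem_union_right _ ((hQ x hx).2 y h1 h2)⟩
    · rw [Function.update_of_ne hv]
      exact h.cd v
  · intro v v' hvv
    rcases eq_or_ne v c with rfl | hv
    · rw [Function.update_self, Function.update_of_ne hvv.symm]
      exact disjoint_union_left.2 ⟨h.disj v v' hvv, (hd v').symm⟩
    · rcases eq_or_ne v' c with rfl | hv'
      · rw [Function.update_self, Function.update_of_ne hv]
        exact disjoint_union_right.2 ⟨h.disj v v' hvv, hd v⟩
      · rw [Function.update_of_ne hv, Function.update_of_ne hv']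
        exact h.disj v v' hvv
  · intro v
    rcases eq_or_ne v c with rfl | hv
    · rw [Function.update_self]
      intro hne
      rcases union_nonempty.1 hne with h1 | h1
      · exact h.big v h1
      · exact hb h1
    · rw [Function.update_of_ne hv]
      exact h.big v

lemma sum_add (F : Pt n → Prop) (T : Fin s → Finset (Pt n)) (c : Fin s) (Q : Finset (Pt n))
    (hd : Disjoint (T c) Q) :
    ∑ v, w F (Function.update T c (T c ∪ Q) v) = ∑ v, w F (T v) + w F Q := by
  have := sum_update F T c (T c ∪ Q)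
  rw [w_union F hd] at this
  linarith

/-- one part of the processed node: finished, or moved to a child -/
lemma move {D : SDdnnf n m s} {S : ℕ} {T : Fin s → Finset (Pt n)} (F : Pt n → Prop)
    (h : Good D S T) (j : ℕ) (hj : ∀ v : Fin s, j ≤ v → T v = ∅) (Q : Finset (Pt n)) (K : ℕ)
    (hd : ∀ v, Disjoint (T v) Q)
    (hQ : w F Q ≤ K ∨ ∃ c : Fin s, (c : ℕ) < j ∧ Cd D c Q ∧ S < al D c) :
    ∃ T' : Fin s → Finset (Pt n), Good D S T' ∧ (∀ v : Fin s, j ≤ v → T' v = ∅) ∧
      (∀ P, (∀ v, Disjoint (T v) P) → Disjoint Q P → ∀ v, Disjoint (T' v) P) ∧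
      ∑ v, w F (T v) + w F Q ≤ ∑ v, w F (T' v) + K := by
  rcases hQ with hQ | ⟨c, hc, hQ, hb⟩
  · exact ⟨T, h, hj, fun P hP _ => hP, by linarith⟩
  · refine ⟨Function.update T c (T c ∪ Q), good_add h c Q hQ (fun _ => hb) hd, ?_, ?_, ?_⟩
    · intro v hv
      have : v ≠ c := by
        rintro rfl
        omega
      rw [Function.update_of_ne this]
      exact hj v hv
    · intro P hP hQP v
      rcases eq_or_ne v c with rfl | hv
      · rw [Function.update_self]
        exact disjoint_union_left.2 ⟨hP v, hQP⟩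
      · rw [Function.update_of_ne hv]
        exact hP v
    · rw [sum_add F T c Q (hd c)]
      have : (0 : ℤ) ≤ K := by positivity
      linarith

lemma al_le {D : SDdnnf n m s} {v : Fin s} {T : Finset (Pt n)} (h : Cd D v T) (hT : T.Nonempty) :
    al D v ≤ cw (D.vars v) T := by
  obtain ⟨x, hx⟩ := hT
  unfold al
  rw [cw_def, cw_def]
  refine card_le_card ?_
  intro p hp
  obtain ⟨y, hy, rfl⟩ := mem_image.1 hp
  rw [mem_Av] at hy
  refine mem_image.2 ⟨mix (D.vars v) y x, (h x hx).2 _ (mix_off _ _ _) ?_, ?_⟩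
  · refine (dep D v _ _ ?_).1 hy
    intro i hi
    simp [mix, hi]
  · rw [rs_eq_iff]
    intro i hi
    simp [mix, hi]

lemma cw_le_al {D : SDdnnf n m s} {v : Fin s} {T : Finset (Pt n)} (h : ∀ x ∈ T, D.val v x) :
    cw (D.vars v) T ≤ al D v := by
  refine cw_mono _ ?_
  intro x hx
  exact mem_Av.2 (h x hx)

/-- the part of a disjunction which goes to the child `c` -/
lemma or_part {D : SDdnnf n m s} {S : ℕ} {F : Pt n → Prop} (hS : 1 ≤ S) (hF : Dense F S)
    {u c : Fin s} (hc : c < u) (hv : D.vars c ⊆ D.vars u) (hi : ∀ x, D.val c x → D.val u x)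
    {P Q : Finset (Pt n)} (hP : Cd D u P) (hQ : ∀ x, x ∈ Q ↔ x ∈ P ∧ D.val c x)
    (hb : cw (D.vars u)ᶜ P ≤ S) :
    w F Q ≤ ((2 * S ^ 3 * 2 ^ m : ℕ) : ℤ) ∨
      ∃ c : Fin s, (c : ℕ) < (u : ℕ) ∧ Cd D c Q ∧ S < al D c := by
  classical
  by_cases hal : S < al D c
  · right
    refine ⟨c, hc, ?_, hal⟩
    intro x hx
    rw [hQ] at hx
    refine ⟨hx.2, ?_⟩
    intro y h1 h2
    rw [hQ]
    exact ⟨(hP x hx.1).2 y (off_mono' hv h1) (hi y h2), h2⟩
  · left
    push Not at hal
    have hQP : Q ⊆ P := fun x hx => ((hQ x).1 hx).1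
    have hun : D.vars c ∪ (D.vars u)ᶜ ∪ (D.vars u \ D.vars c) = univ := by
      ext i
      simp only [mem_union, mem_compl, mem_sdiff, mem_univ, iff_true]
      tauto
    have hcl : Cl (D.vars u \ D.vars c) Q := by
      intro x hx y hy
      rw [hQ] at hx ⊢
      have hyc : D.val c y := by
        refine (dep D c _ _ ?_).1 hx.2
        intro i hi'
        exact (hy i fun h' => (mem_sdiff.1 h').2 hi').symm
      exact ⟨(hP x hx.1).2 y (off_mono' sdiff_subset hy) (hi y hyc), hyc⟩
    have hw := w_le_of (K := 2 * S ^ 3) (piece hS hF (X := D.vars c) (Y := (D.vars u)ᶜ)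
      (E := D.vars u \ D.vars c) (T := Q) hun
      ((cw_le_al (fun x hx => ((hQ x).1 hx).2)).trans hal) ((cw_mono _ hQP).trans hb) hcl)
    refine hw.trans ?_
    have : 2 * S ^ 3 ≤ 2 * S ^ 3 * 2 ^ m := Nat.le_mul_of_pos_right _ (by positivity)
    exact_mod_cast this

/-- the leaf case -/
lemma leaf {D : SDdnnf n m s} {S : ℕ} {F : Pt n → Prop} (hA : AffDense F S) {u : Fin s}
    {P : Finset (Pt n)} (hP : Cd D u P) (hc : Cells m (D.val u))
    (hb : cw (D.vars u)ᶜ P ≤ S) : w F P ≤ ((S * 2 ^ m * S : ℕ) : ℤ) := by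
  classical
  obtain ⟨c, hc1, hc2⟩ := hc
  set f : Pt n → Pt n × Fin (2 ^ m) := fun x => (rs (D.vars u)ᶜ x, c x) with hf
  set I : Finset (Pt n × Fin (2 ^ m)) := (P.image (rs (D.vars u)ᶜ)) ×ˢ univ with hI
  have hmap : ∀ x ∈ P, f x ∈ I := fun x hx =>
    mem_product.2 ⟨mem_image_of_mem _ hx, mem_univ _⟩
  have h1 : w F P = ∑ q ∈ I, w F (P.filter fun x => f x = q) := by
    unfold w
    exact (sum_fiberwise_of_maps_to hmap _).symm
  have h2 : ∀ q ∈ I, w F (P.filter fun x => f x = q) ≤ (S : ℤ) := by
    intro q _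
    refine w_le_of ?_
    rcases Nat.lt_or_ge S (P.filter fun x => f x = q).card with h | h
    · refine Or.inl (hA _ ?_ h)
      intro x y z hx hy hz
      simp only [mem_filter] at hx hy hz ⊢
      obtain ⟨hx1, hx2⟩ := hx
      obtain ⟨hy1, hy2⟩ := hy
      obtain ⟨hz1, hz2⟩ := hz
      have ey : ∀ i ∈ (D.vars u)ᶜ, y i = x i :=
        (rs_eq_iff _ _ _).1 (congrArg Prod.fst (hy2.trans hx2.symm))
      have ez : ∀ i ∈ (D.vars u)ᶜ, z i = x i :=
        (rs_eq_iff _ _ _).1 (congrArg Prod.fst (hz2.trans hx2.symm))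
      have cy : c y = c x := congrArg Prod.snd (hy2.trans hx2.symm)
      have cz : c z = c x := congrArg Prod.snd (hz2.trans hx2.symm)
      have e : ∀ i ∈ (D.vars u)ᶜ, (x i ^^ y i ^^ z i) = x i := by
        intro i hi
        rw [ey i hi, ez i hi]
        cases x i <;> rfl
      have ce : c (fun i => (x i ^^ y i ^^ z i)) = c x := hc1 (c x) x y z rfl cy cz
      refine ⟨(hP x hx1).2 _ ?_ ?_, ?_⟩
      · intro i hi
        exact e i (by simpa using hi)
      · rw [hc2 _ _ ce]
        exact (hP x hx1).1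
      · rw [← hx2]
        exact Prod.ext ((rs_eq_iff _ _ _).2 e) ce
    · exact Or.inr h
  have h3 : I.card ≤ S * 2 ^ m := by
    rw [hI, card_product, card_univ, Fintype.card_fin]
    exact Nat.mul_le_mul_right _ hb
  rw [h1]
  refine (sum_le_card_nsmul _ _ _ h2).trans ?_
  rw [nsmul_eq_mul]
  have : I.card * S ≤ S * 2 ^ m * S := Nat.mul_le_mul_right _ h3
  exact_mod_cast this

/-- the top-down process -/
lemma process {D : SDdnnf n m s} {S : ℕ} {F : Pt n → Prop} (hS : 1 ≤ S) (hF : Dense F S)
    (hA : AffDense F S) :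
    ∀ (j : ℕ), j ≤ s → ∀ T : Fin s → Finset (Pt n), Good D S T →
      (∀ v : Fin s, j ≤ v → T v = ∅) →
      ∑ v, w F (T v) ≤ ((j * (4 * S ^ 3 * 2 ^ m) : ℕ) : ℤ) := by
  classical
  intro j
  induction j with
  | zero =>
    intro _ T _ h0
    have : ∀ v, T v = ∅ := fun v => h0 v (Nat.zero_le _)
    simp [this, w_empty]
  | succ j ih =>
    intro hj T hT h0
    obtain ⟨u, hu⟩ : ∃ u : Fin s, (u : ℕ) = j := ⟨⟨j, hj⟩, rfl⟩
    set T₀ := Function.update T u ∅ with hT₀
    have hg₀ : Good D S T₀ := good_remove hT u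
    have hs₀ : ∑ v, w F (T v) = ∑ v, w F (T₀ v) + w F (T u) := by
      have := sum_update F T u ∅
      rw [w_empty] at this
      rw [hT₀]
      linarith
    have hj₀ : ∀ v : Fin s, j ≤ v → T₀ v = ∅ := by
      intro v hv
      rcases eq_or_ne v u with rfl | hvu
      · rw [hT₀, Function.update_self]
      · rw [hT₀, Function.update_of_ne hvu]
        refine h0 v ?_
        have : (v : ℕ) ≠ u := fun h => hvu (Fin.ext h)
        omega
    have hd₀ : ∀ v, Disjoint (T₀ v) (T u) := by
      intro v
      rcases eq_or_ne v u with rfl | hvu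
      · rw [hT₀, Function.update_self]
        exact disjoint_empty_left _
      · rw [hT₀, Function.update_of_ne hvu]
        exact hT.disj v u hvu
    -- it is enough to split the set at `u`
    suffices hsplit : ∃ P Q : Finset (Pt n), P ∪ Q = T u ∧ Disjoint P Q ∧
        (w F P ≤ ((2 * S ^ 3 * 2 ^ m : ℕ) : ℤ) ∨
          ∃ c : Fin s, (c : ℕ) < (u : ℕ) ∧ Cd D c P ∧ S < al D c) ∧
        (w F Q ≤ ((2 * S ^ 3 * 2 ^ m : ℕ) : ℤ) ∨
          ∃ c : Fin s, (c : ℕ) < (u : ℕ) ∧ Cd D c Q ∧ S < al D c) by
      obtain ⟨P, Q, hPQ, hdis, hP, hQ⟩ := hsplit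
      rw [hu] at hP hQ
      have hdP : ∀ v, Disjoint (T₀ v) P := fun v =>
        (hd₀ v).mono_right (by rw [← hPQ]; exact subset_union_left)
      have hdQ : ∀ v, Disjoint (T₀ v) Q := fun v =>
        (hd₀ v).mono_right (by rw [← hPQ]; exact subset_union_right)
      obtain ⟨T₁, g1, e1, d1, s1⟩ := move F hg₀ j hj₀ P _ hdP hP
      obtain ⟨T₂, g2, e2, _, s2⟩ := move F g1 j e1 Q _ (d1 Q hdQ hdis) hQ
      have h3 := ih (by omega) T₂ g2 e2
      have h4 : w F (T u) = w F P + w F Q := by rw [← hPQ, w_union F hdis]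
      rw [hs₀, h4]
      push_cast at *
      linarith
    -- the cases
    set P := T u with hP
    have hCd : Cd D u P := hT.cd u
    have one : ∀ (K : ℕ), K ≤ 2 * S ^ 3 * 2 ^ m → w F P ≤ (K : ℤ) →
        ∃ P' Q : Finset (Pt n), P' ∪ Q = P ∧ Disjoint P' Q ∧
        (w F P' ≤ ((2 * S ^ 3 * 2 ^ m : ℕ) : ℤ) ∨
          ∃ c : Fin s, (c : ℕ) < (u : ℕ) ∧ Cd D c P' ∧ S < al D c) ∧
        (w F Q ≤ ((2 * S ^ 3 * 2 ^ m : ℕ) : ℤ) ∨
          ∃ c : Fin s, (c : ℕ) < (u : ℕ) ∧ Cd D c Q ∧ S < al D c) := by
      intro K hK hw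
      refine ⟨P, ∅, by simp, disjoint_empty_right _, Or.inl (hw.trans (by exact_mod_cast hK)),
        Or.inl ?_⟩
      rw [w_empty]
      positivity
    have two : ∀ c : Fin s, c < u → Cd D c P → S < al D c →
        ∃ P' Q : Finset (Pt n), P' ∪ Q = P ∧ Disjoint P' Q ∧
        (w F P' ≤ ((2 * S ^ 3 * 2 ^ m : ℕ) : ℤ) ∨
          ∃ c : Fin s, (c : ℕ) < (u : ℕ) ∧ Cd D c P' ∧ S < al D c) ∧
        (w F Q ≤ ((2 * S ^ 3 * 2 ^ m : ℕ) : ℤ) ∨
          ∃ c : Fin s, (c : ℕ) < (u : ℕ) ∧ Cd D c Q ∧ S < al D c) := by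
      intro c hc hcd hal
      refine ⟨P, ∅, by simp, disjoint_empty_right _, Or.inr ⟨c, hc, hcd, hal⟩, Or.inl ?_⟩
      rw [w_empty]
      positivity
    have hm : 1 ≤ 2 ^ m := Nat.one_le_two_pow
    have hS3 : S ≤ S ^ 3 := by
      calc S = S * 1 := by ring
        _ ≤ S * S ^ 2 := Nat.mul_le_mul_left _ (Nat.one_le_pow _ _ (by omega))
        _ = S ^ 3 := by ring
    rcases P.eq_empty_or_nonempty with hPe | hPne
    · exact one 0 (Nat.zero_le _) (by rw [hPe, w_empty]; simp)
    have hbig : S < al D u := hT.big u hPne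
    by_cases hb : S < cw (D.vars u)ᶜ P
    · -- thick box
      refine one 0 (Nat.zero_le _) (w_le_of (Or.inl (hF (D.vars u) P ?_
        (hbig.trans_le (al_le hCd hPne)) hb)))
      intro x hx y hy
      refine (hCd y hy).2 _ (mix_off _ _ _) ((dep D u _ _ ?_).1 (hCd x hx).1)
      intro i hi
      simp [mix, hi]
    push Not at hb
    have hcard2 : P.card ≤ cw (D.vars u) P * cw (D.vars u)ᶜ P := by
      calc P.card = cw (D.vars u ∪ (D.vars u)ᶜ) P := by rw [union_compl, cw_univ]
        _ ≤ _ := cw_union_le _ _ _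
    rcases D.ok u with hl | ⟨a, b, ha, hb', h1, h3, h5⟩ | ⟨a, b, ha, hb', h3, h5, h6⟩
    · refine one (S * 2 ^ m * S) ?_ (leaf hA hCd hl.1 hb)
      calc S * 2 ^ m * S = S ^ 2 * 2 ^ m := by ring
        _ ≤ (2 * S ^ 3) * 2 ^ m := by
          refine Nat.mul_le_mul_right _ ?_
          calc S ^ 2 = 1 * S ^ 2 := by ring
            _ ≤ (2 * S) * S ^ 2 := Nat.mul_le_mul_right _ (by omega)
            _ = 2 * S ^ 3 := by ring
    · -- conjunction
      have key : ∀ a b : Fin s, Disjoint (D.vars a) (D.vars b) → D.vars u = D.vars a ∪ D.vars b →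
          (∀ x, D.val u x ↔ D.val a x ∧ D.val b x) → Cd D a P := by
        intro a b h1 h3 h5 x hx
        have h7 := (h5 x).1 (hCd x hx).1
        refine ⟨h7.1, ?_⟩
        intro y h8 h9
        refine (hCd x hx).2 y (off_mono' (by rw [h3]; exact subset_union_left) h8)
          ((h5 y).2 ⟨h9, (dep D b _ _ ?_).1 h7.2⟩)
        intro i hi
        exact (h8 i fun h' => disjoint_left.1 h1 h' hi).symm
      by_cases hala : S < al D a
      · exact two a ha (key a b h1 h3 h5) hala
      by_cases halb : S < al D b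
      · exact two b hb' (key b a h1.symm (by rw [h3, union_comm])
          (fun x => by rw [h5]; exact and_comm)) halb
      push Not at hala halb
      refine one (S * S * S) ?_ ((w_le_card F P).trans ?_)
      · calc S * S * S = 1 * S ^ 3 * 1 := by ring
          _ ≤ 2 * S ^ 3 * 2 ^ m := Nat.mul_le_mul (Nat.mul_le_mul_right _ (by norm_num)) hm
      · have : P.card ≤ S * S * S := by
          refine hcard2.trans (Nat.mul_le_mul ?_ hb)
          rw [h3]
          refine (cw_union_le _ _ _).trans (Nat.mul_le_mul ?_ ?_)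
          · exact (cw_le_al fun x hx => ((h5 x).1 (hCd x hx).1).1).trans hala
          · exact (cw_le_al fun x hx => ((h5 x).1 (hCd x hx).1).2).trans halb
        exact_mod_cast this
    · -- disjunction
      refine ⟨P.filter (D.val a), P.filter (D.val b), ?_, ?_, ?_, ?_⟩
      · ext x
        simp only [mem_union, mem_filter]
        constructor
        · rintro (h | h)
          · exact h.1
          · exact h.1
        · intro hx
          rcases (h5 x).1 (hCd x hx).1 with h | h
          · exact Or.inl ⟨hx, h⟩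
          · exact Or.inr ⟨hx, h⟩
      · rw [disjoint_left]
        intro x hx hx'
        exact h6 x ⟨(mem_filter.1 hx).2, (mem_filter.1 hx').2⟩
      · exact or_part hS hF ha (by rw [h3]; exact subset_union_left)
          (fun x hx => (h5 x).2 (Or.inl hx)) hCd (fun x => mem_filter) hb
      · exact or_part hS hF hb' (by rw [h3]; exact subset_union_right)
          (fun x hx => (h5 x).2 (Or.inr hx)) hCd (fun x => mem_filter) hb

end DetS

open DetS in
open Pool.Agent.STD.Det (w w_empty w_eq w_le_of) in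
/-- **d-DNNFs with affine cells in the leaves, near a formula without thick boxes and without large
almost full affine sets of models, are large.** -/
theorem thm_WldS : St_WldS := by
  classical
  intro n m s D r F S hS hF hA
  have hw : w F (Av D r) ≤ (((s + 1) * (4 * S ^ 3 * 2 ^ m) : ℕ) : ℤ) := by
    have hm : 1 ≤ 2 ^ m := Nat.one_le_two_pow
    by_cases hr : S < al D r
    · have hg : Good D S (fun _ => (∅ : Finset (Pt n))) := by
        refine ⟨fun v x hx => ?_, fun _ _ _ => disjoint_empty_left _, fun v hv => ?_⟩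
        · simp at hx
        · simp at hv
      have hcd : Cd D r (Av D r) := by
        intro x hx
        exact ⟨mem_Av.1 hx, fun y _ h => mem_Av.2 h⟩
      have hg' := good_add hg r (Av D r) hcd (fun _ => hr) (fun v => disjoint_empty_left _)
      have hs := sum_add F (fun _ => (∅ : Finset (Pt n))) r (Av D r) (disjoint_empty_left _)
      have hp := process hS hF hA s le_rfl _ hg' (fun v hv => absurd v.2 (not_lt.2 hv))
      rw [hs] at hp
      simp only [w_empty, sum_const_zero, zero_add] at hp
      refine hp.trans ?_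
      have : s * (4 * S ^ 3 * 2 ^ m) ≤ (s + 1) * (4 * S ^ 3 * 2 ^ m) :=
        Nat.mul_le_mul_right _ (by omega)
      exact_mod_cast this
    · push Not at hr
      have hcl : Cl (D.vars r)ᶜ (Av D r) := by
        intro x hx y hy
        rw [mem_Av] at hx ⊢
        refine (DetS.dep D r _ _ ?_).1 hx
        intro i hi
        exact (hy i (by simpa using hi)).symm
      have h0 : cw (∅ : Finset (Fin n)) (Av D r) ≤ S := (cw_empty_le _).trans hS
      have := w_le_of (K := 2 * S ^ 3) (piece hS hF (X := D.vars r) (Y := ∅) (E := (D.vars r)ᶜ)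
        (T := Av D r) (by rw [union_empty, union_compl]) hr h0 hcl)
      refine this.trans ?_
      have : 2 * S ^ 3 ≤ (s + 1) * (4 * S ^ 3 * 2 ^ m) := by
        calc 2 * S ^ 3 = 1 * (2 * S ^ 3 * 1) := by ring
          _ ≤ (s + 1) * (4 * S ^ 3 * 2 ^ m) := Nat.mul_le_mul (by omega)
            (Nat.mul_le_mul (by omega) hm)
      exact_mod_cast this
  have h1 : Nat.card {x // F x} = (univ.filter F).card := by
    rw [Nat.card_eq_fintype_card, Fintype.card_subtype]
  have h2 : Nat.card {x // ¬ (D.val r x ↔ F x)} = (univ.filter fun x => ¬ (D.val r x ↔ F x)).card := by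
    rw [Nat.card_eq_fintype_card, Fintype.card_subtype]
  rw [h1, h2]
  have h3 : (univ.filter F).card = ((Av D r).filter F).card +
      (univ.filter fun x => F x ∧ ¬ D.val r x).card := by
    rw [← card_union_of_disjoint]
    · congr 1
      ext x
      simp only [mem_filter, mem_univ, true_and, mem_union, mem_Av]
      tauto
    · rw [disjoint_left]
      intro x hx hx'
      exact (mem_filter.1 hx').2.2 (mem_Av.1 (mem_filter.1 hx).1)
  have h4 : (univ.filter fun x => ¬ (D.val r x ↔ F x)).card =
      ((Av D r).filter fun x => ¬ F x).card + (univ.filter fun x => F x ∧ ¬ D.val r x).card := by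
    rw [← card_union_of_disjoint]
    · congr 1
      ext x
      simp only [mem_filter, mem_univ, true_and, mem_union, mem_Av]
      tauto
    · rw [disjoint_left]
      intro x hx hx'
      exact (mem_filter.1 hx').2.2 (mem_Av.1 (mem_filter.1 hx).1)
  have h5 := card_filter_add_card_filter_not (s := Av D r) F
  rw [w_eq] at hw
  zify
  have h3' : ((univ.filter F).card : ℤ) = ((Av D r).filter F).card +
      (univ.filter fun x => F x ∧ ¬ D.val r x).card := by exact_mod_cast h3
  have h4' : ((univ.filter fun x => ¬ (D.val r x ↔ F x)).card : ℤ) =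
      ((Av D r).filter fun x => ¬ F x).card +
      (univ.filter fun x => F x ∧ ¬ D.val r x).card := by exact_mod_cast h4
  have h5' : (((Av D r).filter F).card : ℤ) + ((Av D r).filter fun x => ¬ F x).card =
      (Av D r).card := by exact_mod_cast h5
  push_cast at hw ⊢
  linarith

end Pool.Agent.STS
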