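import Pool.Agent.STD.Defs

/-!
# Tractable leaves: definitions and statements of the modules

The leaves of DNNFs, d-DNNFs and programs may now be tractable constraint systems on any number of
variables: for DNNFs, sets closed under an operation of Schaefer (Horn, dual Horn, 2-CNF, affine
systems, renamable Horn); for d-DNNFs and programs, affine systems.
-/

set_option autoImplicit false

namespace Pool.Agent.STS

open Finset Pool.Agent.STH Pool.Agent.STD

/-- The operation `t i` is applied in the coordinate `i`. -/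
def ap {N : ℕ} (t : Fin N → Bool → Bool → Bool → Bool) (x y w : Fin N → Bool) : Fin N → Bool :=
  fun i => t i (x i) (y i) (w i)

/-- In every coordinate, `t` is one of the four operations of Schaefer: conjunction or disjunction
(of the last two arguments), majority, sum modulo 2. -/
def IsSch {N : ℕ} (t : Fin N → Bool → Bool → Bool → Bool) : Prop := ∀ i,
  (∀ a b c, t i a b c = (b && c)) ∨ (∀ a b c, t i a b c = (b || c)) ∨
  (∀ a b c, t i a b c = ((a && b) || (a && c) || (b && c))) ∨
  (∀ a b c, t i a b c = (a ^^ b ^^ c))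

/-- The set `A` is closed under an operation which is, in every coordinate, one of the four
operations of Schaefer. This is the case for the solution sets of Horn, dual Horn, renamable Horn
formulas, of 2-CNFs, of systems of linear equations modulo 2, and for projections of such sets. -/
def SchClosed {n : ℕ} (A : (Fin n → Bool) → Prop) : Prop :=
  ∃ t : Fin n → Bool → Bool → Bool → Bool, IsSch t ∧ ∀ x y w, A x → A y → A w → A (ap t x y w)

/-- `A` is the solution set of a system of linear equations modulo 2. -/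
def Affine {n : ℕ} (A : (Fin n → Bool) → Prop) : Prop :=
  ∀ x y w, A x → A y → A w → A fun i => (x i ^^ y i ^^ w i)

/-- There is a partition of the cube into at most `2 ^ m` affine sets such that `g` is constant on
each of them. (For example, `g` depends on `m` variables, or on `m` sums modulo 2 of variables.) -/
def Cells {n : ℕ} {α : Type} (m : ℕ) (g : (Fin n → Bool) → α) : Prop :=
  ∃ c : (Fin n → Bool) → Fin (2 ^ m), (∀ j, Affine fun x => c x = j) ∧
    ∀ x x', c x = c x' → g x = g x'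

/-- A DNNF with `s` nodes in the `n` variables `x` and the `q` auxiliary variables `z`: the node
`v` has a set `vars v` of variables, a set `aux v` of auxiliary variables and a set `val v` of
accepted pairs `(x, z)`, and is
* a leaf, on any number of variables, such that the set of the `x` with an accepted pair `(x, z)`
  is a union of at most `2 ^ m` sets closed under operations of Schaefer, or
* a conjunction of two nodes without common variables, or
* a disjunction of two nodes.
Children come earlier in the order of the nodes. -/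
structure SDnnf (n q m s : ℕ) where
  /-- the variables of a node -/
  vars : Fin s → Finset (Fin n)
  /-- the auxiliary variables of a node -/
  aux : Fin s → Finset (Fin q)
  /-- the pairs accepted by a node -/
  val : Fin s → (Fin n → Bool) → (Fin q → Bool) → Prop
  /-- the rules -/
  ok : ∀ v : Fin s,
    ((∃ A : Fin (2 ^ m) → (Fin n → Bool) → Prop, (∀ j, SchClosed (A j)) ∧
        ∀ x, (∃ z, val v x z) ↔ ∃ j, A j x) ∧
      ∀ x x' z z', (∀ i ∈ vars v, x i = x' i) → (∀ j ∈ aux v, z j = z' j) →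
        (val v x z ↔ val v x' z')) ∨
    (∃ a b : Fin s, a < v ∧ b < v ∧ Disjoint (vars a) (vars b) ∧ Disjoint (aux a) (aux b) ∧
      vars v = vars a ∪ vars b ∧ aux v = aux a ∪ aux b ∧
      ∀ x z, val v x z ↔ val a x z ∧ val b x z) ∨
    (∃ a b : Fin s, a < v ∧ b < v ∧ vars v = vars a ∪ vars b ∧ aux v = aux a ∪ aux b ∧
      ∀ x z, val v x z ↔ val a x z ∨ val b x z)

/-- A deterministic DNNF (d-DNNF) with `s` nodes in `n` variables: as above, without auxiliary
variables; no point is accepted by both inputs of a disjunction; and a leaf is a function of its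
variables (of any number) which is constant on the parts of a partition of the cube into at most
`2 ^ m` affine sets. -/
structure SDdnnf (n m s : ℕ) where
  /-- the variables of a node -/
  vars : Fin s → Finset (Fin n)
  /-- the points accepted by a node -/
  val : Fin s → (Fin n → Bool) → Prop
  /-- the rules -/
  ok : ∀ v : Fin s,
    (Cells m (val v) ∧ ∀ x x', (∀ i ∈ vars v, x i = x' i) → (val v x ↔ val v x')) ∨
    (∃ a b : Fin s, a < v ∧ b < v ∧ Disjoint (vars a) (vars b) ∧ vars v = vars a ∪ vars b ∧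
      ∀ x, val v x ↔ val a x ∧ val b x) ∨
    (∃ a b : Fin s, a < v ∧ b < v ∧ vars v = vars a ∪ vars b ∧
      (∀ x, val v x ↔ val a x ∨ val b x) ∧ ∀ x, ¬ (val a x ∧ val b x))

/-- A program over the field `K` in `n` variables with `s` nodes. The node `v` has a set `vars v`
of variables and a function `val v` on the cube, and is
* a leaf: a function of the variables in `vars v` (of any number) which is constant on the parts
  of a partition of the cube into at most `2 ^ m` affine sets, or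
* a test: `a` if `t = 0` and `b` if `t = 1`, where the node `t` has the values `0` and `1` only and
  no variable in common with the nodes `a` and `b`, or
* a gate `α + β a + γ b + δ a b`, applied to two nodes `a`, `b` with no variable in common.
The inputs of a node come earlier in the order of the nodes. -/
structure SProgram (K : Type) [Field K] (n s m : ℕ) where
  /-- the variables of a node -/
  vars : Fin s → Finset (Fin n)
  /-- the function computed by a node -/
  val : Fin s → (Fin n → Bool) → K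
  /-- the rules -/
  ok : ∀ v : Fin s,
    (Cells m (val v) ∧ ∀ x x' : Fin n → Bool, (∀ i ∈ vars v, x i = x' i) → val v x = val v x') ∨
    (∃ t a b : Fin s, t < v ∧ a < v ∧ b < v ∧ Disjoint (vars t) (vars a ∪ vars b) ∧
      vars v = vars t ∪ (vars a ∪ vars b) ∧
      ∀ x, (val t x = 0 ∧ val v x = val a x) ∨ (val t x = 1 ∧ val v x = val b x)) ∨
    (∃ a b : Fin s, a < v ∧ b < v ∧ Disjoint (vars a) (vars b) ∧ vars v = vars a ∪ vars b ∧
      ∃ α β γ δ : K, ∀ x, val v x = α + β * val a x + γ * val b x + δ * (val a x * val b x))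

/-- `2 r + 1` points never generate `r ^ 2` pairwise far apart models of `F`. -/
def NoTri {n : ℕ} (F : Pt n → Prop) (r d : ℕ) : Prop :=
  ∀ t, IsSch t → ∀ (x₀ : Pt n) (x y : Fin r → Pt n),
    (∀ p p' : Fin r × Fin r, p ≠ p' →
      d ≤ dist (ap t x₀ (x p.1) (y p.2)) (ap t x₀ (x p'.1) (y p'.2))) →
    ∃ p : Fin r × Fin r, ¬ F (ap t x₀ (x p.1) (y p.2))

/-- Sets of models of `F` which are closed under an operation of Schaefer have at most `S`
elements. -/
def ThinCl {n : ℕ} (F : Pt n → Prop) (S : ℕ) : Prop :=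
  ∀ t, IsSch t → ∀ X : Finset (Pt n), (∀ x ∈ X, F x) →
    (∀ x ∈ X, ∀ y ∈ X, ∀ w ∈ X, ap t x y w ∈ X) → X.card ≤ S

open Classical in
/-- In an affine set with more than `S` points, at most half of the points are models of `F`. -/
def AffDense {n : ℕ} (F : Pt n → Prop) (S : ℕ) : Prop :=
  ∀ X : Finset (Pt n), (Affine fun x => x ∈ X) → S < X.card → 2 * (X.filter F).card ≤ X.card

/-- [Scl] closed sets of models are small (Sauer-Shelah). PROOF. Identify points with subsets of
`Fin n`. If `S < X.card`, then by `Finset.card_le_card_shatterer` and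
`Finset.card_shatterer_le_sum_vcDim` and `BallLe` (the ball of radius `< d` around `0` has
`∑ k < d, choose n k` points) `X` shatters a set `D₀` with at least `d` elements, hence a set `D₁`
with `4 * D₁.card ≥ d` on which `t i` does not depend on `i`. Label `D₁` by
`(Fin r → Bool) × (Fin r → Bool)` such that every label is used at least `D₁.card / 4 ^ r` times.
Choose `x₀`, `x i`, `y j` in `X` with values `0`, `u i`, `w j` at a point of `D₁` with the label
`(u, w)`. For `(i, j) ≠ (i', j')` at least a quarter of the labels distinguish the two points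
`ap t x₀ (x i) (y j)`, `ap t x₀ (x i') (y j')`, so their distance is at least
`4 ^ r / 4 * (D₁.card / 4 ^ r) ≥ D₁.card / 8 ≥ t`. -/
def St_Scl : Prop := ∀ (n r t d : ℕ) (F : Pt n → Prop) (B : ℝ) (S : ℕ), BallLe n d B →
  NoTri F r t → 32 * t ≤ d → 4 ^ (r + 1) ≤ d → B ≤ (S : ℝ) → ThinCl F S

/-- [Afd] large affine sets contain many non-models. PROOF as `STD/Den.lean` (Kővári–Sós–Turán).
Suppose `X.card < 2 * (X.filter F).card`, fix `x₀ ∈ X`. For every `q ∈ X` the set
`N q = {p ∈ X | F (x₀ + p + q)}` has `(X.filter F).card` elements (`p ↦ x₀ + p + q` permutes `X`),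
so by `thm_Tup` at least `(X.card / 4) ^ r` tuples `z` in `N q` are separated (distance `≥ t`), so
some tuple `z` is good for at least `X.card / 4 ^ r` elements `q`. Choose `r` of these, `w j`,
greedily, such that `w j'` is not in the ball of radius `< t` around `z i + z i' + w j` for
`j < j'` and all `i, i'`: this excludes at most `r * r ^ 2 * B` points, and
`4 ^ r * r ^ 3 ≤ 8 ^ (r + 1) * r`. The points `x₀ + z i + w j` contradict `NoTri`. -/
def St_Afd : Prop := ∀ (n r t d : ℕ) (F : Pt n → Prop) (B : ℝ) (S : ℕ), 1 ≤ r → 1 ≤ B → t ≤ d →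
  BallLe n d B → NoTri F r t → 8 ^ (r + 1) * r * B ≤ (S : ℝ) → AffDense F S

/-- [Tri] few formulas have such models. PROOF as `STD/Grd.lean`: for given `t`, `x₀`, `x`, `y` the
`r ^ 2` points are pairwise at distance at least `d`, so `thm_Cls` applies with `q = r * r`; there
are at most `2 ^ (8 * n) * 2 ^ (n * (2 * r + 1))` choices
(`Fintype.card (Fin n → Bool → Bool → Bool → Bool) = 2 ^ (8 * n)`). -/
def St_Tri : Prop := ∀ (Δ τ : ℝ) (k r : ℕ), 0 < Δ → Δ ≤ 1 → 0 < τ → τ ≤ 1 →
  10 ≤ Δ * r → 2 ≤ k → (r : ℝ) ^ 4 * (1 - τ) ^ k ≤ 1 →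
  ∃ n₀ : ℕ, ∀ n : ℕ, n₀ ≤ n → ∀ (t M : ℕ), τ * n ≤ t → t ≤ n → M = ⌊Δ * n * 2 ^ k⌋₊ →
    ((Nat.card {ω : Fm n k M // ¬ NoTri (Mod ω) r t} : ℕ) : ℝ) ≤
      (2 * (n : ℝ)) ^ (k * M) * Real.exp (-(4 * n))

/-- [Rn3] the random formula, with the three properties. PROOF as `STD/Rn2.lean`, with `St_Tri` for
`τ / 33` and `t = d / 32` (`τ / 33 * n ≤ (d / 32 : ℕ)` for `n ≥ 1056 / τ`). -/
def St_Rn3 : Prop := ∀ (Δ θ τ : ℝ) (k p : ℕ), 0 < Δ → 16 * Δ ≤ θ → θ ≤ 1 / 8 → 0 < τ → τ ≤ 1 →
  10 ≤ Δ * p → 2 ≤ k → 4 * (p : ℝ) ^ 2 * (1 - min τ (θ / 20)) ^ k ≤ 1 →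
  (p : ℝ) ^ 4 * (1 - τ / 33) ^ k ≤ 1 →
  ∃ n₀ : ℕ, ∀ n : ℕ, n₀ ≤ n → ∀ (a d M : ℕ), θ * n ≤ a → τ * n ≤ d → d ≤ n →
    M = ⌊Δ * n * 2 ^ k⌋₊ →
    ∃ ω : Fm n k M, 2 ^ n * Real.exp (-(5 / 4 * Δ * n)) / 2 ≤ ((Nat.card {x // Mod ω x} : ℕ) : ℝ) ∧
      PropQ (Mod ω) a d (Real.exp (-(3 / 2 * Δ * n))) ∧ NoGrid (Mod ω) p d ∧
      NoTri (Mod ω) p (d / 32)

/-- [WlkS] (projections of) such DNNFs which imply `F`. PROOF as `STD/Wlk.lean`. The new leaf case:
let `A j` be the sets of the leaf `u`, let `x₀ ∈ Tv D r u` with witness `z₀`. For each `j` the set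
`X j` of the points `y` with `Off (vars u) x₀ y` and `A j y` is closed under `t` (`t i b b b = b`)
and consists of points with `F` (`D.val u y z` for some `z`; replace `z` by `mix (aux u) z z₀`), so
it has at most `S` elements; and `cw (vars u) (Tv D r u)` is at most the number of elements of the union of
the sets `X j` (`x ↦ mix (vars u) x x₀`), so at most `2 ^ m * S`. So
`(Tv D r u).card ≤ 2 ^ m * S * S` if `cw (vars u)ᶜ (Tv D r u) ≤ S`. -/
def St_WlkS : Prop := ∀ (n q m s : ℕ) (D : SDnnf n q m s) (r : Fin s) (F : Pt n → Prop)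
  (S : ℕ), 1 ≤ S → Dense F S → ThinCl F S → (∀ x z, D.val r x z → F x) →
  Nat.card {x // ∃ z, D.val r x z} ≤ (s + 1) * (4 * S ^ 3 * 2 ^ m)

/-- [WldS] such d-DNNFs near `F`. PROOF as `STD/Wld.lean`. The new leaf case: `P = T u` is a union
of contexts of the leaf `u`, `cw (vars u)ᶜ P ≤ S`. For each restriction `b` of a point of `P` to
`(vars u)ᶜ` and each `j : Fin (2 ^ m)` the set of the points of `P` with restriction `b` and
`c x = j` is affine (`D.val u` is constant on the cells), so `w F` of it is at most `S`, and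
`w F P ≤ S * 2 ^ m * S`. -/
def St_WldS : Prop := ∀ (n m s : ℕ) (D : SDdnnf n m s) (r : Fin s) (F : Pt n → Prop)
  (S : ℕ), 1 ≤ S → Dense F S → AffDense F S →
  Nat.card {x // F x} ≤
    Nat.card {x // ¬ (D.val r x ↔ F x)} + (s + 1) * (4 * S ^ 3 * 2 ^ m)

/-- [NodL] the lemma for one node, for functions `g` which are constant on cells. PROOF as
`STH/Nod.lean`; only the case `Q.card < 4 * B` of `Nod_fiber` changes: a level set `X` is a union of
cells, so `2 * (F A ∩ X).card - X.card ≤ S * #(cells in X)`; the sum over all different `X A` of the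
numbers of cells is at most `2 * Fintype.card J`. (Cells `{z | c z = j}` may be empty.) -/
def St_NodL : Prop := ∀ (K : Type) [Field K] (P Z J : Type) [Fintype P] [Fintype Z] [Fintype J]
  (f : P → Z → Prop) (c : Z → J) (g : Z → K) (α β : P → K) (near : P → P → Prop) (B Y S : ℝ),
  0 ≤ Y → 1 ≤ B → 0 ≤ S → (∀ z z', c z = c z' → g z = g z') →
  (∀ A j, 2 * ((Nat.card {z : Z // c z = j ∧ f A z} : ℕ) : ℝ) ≤
    ((Nat.card {z : Z // c z = j} : ℕ) : ℝ) + S) →
  (∀ A, ((Nat.card {A' : P // near A A'} : ℕ) : ℝ) ≤ B) →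
  (∀ A A', ¬ near A A' → ((Nat.card {z : Z // f A z ∧ f A' z} : ℕ) : ℝ) ≤ Y) →
  ((Nat.card {q : P × Z // f q.1 q.2} : ℕ) : ℝ) ≤
    ((Nat.card {q : P × Z // (f q.1 q.2 ∧ α q.1 + β q.1 * g q.2 ≠ 1) ∨
        (¬ f q.1 q.2 ∧ α q.1 + β q.1 * g q.2 ≠ 0)} : ℕ) : ℝ)
      + 2 * (Fintype.card P : ℝ) * Y + 8 * B * S * (Fintype.card J : ℝ)

/-- [CylL] the node lemma on a union of cylinders, for functions which are constant on affine
cells. PROOF as `STH/Cyl.lean`, from `St_NodL` with `J = Fin (2 ^ m)`, `c w = c w.1`: for a pattern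
`A` the points `mix R w A` with `c w = j` form an affine set. -/
def St_CylL : Prop := ∀ (K : Type) [Field K] (n : ℕ) (F : Pt n → Prop) (a d m S : ℕ) (Y B : ℝ),
  0 ≤ Y → 1 ≤ B → PropQ F a d Y → BallLe n d B → AffDense F S →
  ∀ (R : Finset (Fin n)) (D : Pt n → Prop) (G g : Pt n → K), a ≤ R.card →
    (∀ x x', D x → Off R x x' → D x') →
    (∀ x x', (∀ i ∈ R, x i = x' i) → g x = g x') → Cells m g →
    (∀ x, D x → ∃ α β : K, ∀ x', Off R x x' → G x' = α + β * g x') →
    ((Nat.card {x // D x ∧ F x} : ℕ) : ℝ) ≤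
      ((Nat.card {x // D x ∧ (F x ∧ G x ≠ 1 ∨ ¬ F x ∧ G x ≠ 0)} : ℕ) : ℝ)
        + 2 * ((Nat.card {x // D x} : ℕ) : ℝ) * Y + 8 * B * S * 2 ^ m

/-- [PthL] the stopping edges and the large leaves. PROOF as `STH/Pth.lean`, where now the walk may
also stop at a leaf `v` with more than `E` variables: label `some (v, none)`, `R = vars v`. -/
def St_PthL : Prop := ∀ (K : Type) [Field K] (n s m : ℕ) (P : SProgram K n s m) (r : Fin s)
  (a E : ℕ), 2 * a ≤ E → E ≤ n →
  ∃ (lab : Pt n → Option (Fin s × Option Bool)) (R : Option (Fin s × Option Bool) → Finset (Fin n))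
    (g : Option (Fin s × Option Bool) → Pt n → K),
    (∀ l x x', (∀ i ∈ R l, x i = x' i) → g l x = g l x') ∧
    ∀ x, a ≤ (R (lab x)).card ∧ ((R (lab x)).card ≤ E ∨ Cells m (g (lab x))) ∧
      ∃ α β : K, ∀ x', Off (R (lab x)) x x' →
        lab x' = lab x ∧ P.val r x' = α + β * g (lab x) x'

/-- [SumL] the lower bound from (Q). PROOF as `STH/Sum.lean`, from `STH.St_Cyl`, `St_CylL` and
`St_PthL`; there are `3 * s + 1` labels. -/
def St_SumL : Prop := ∀ (K : Type) [Field K] (n s m : ℕ) (P : SProgram K n s m) (r : Fin s)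
  (F : Pt n → Prop) (a d E S : ℕ) (Y B : ℝ), 0 ≤ Y → 1 ≤ B → 2 * a ≤ E → E ≤ n →
  PropQ F a d Y → BallLe n d B → AffDense F S →
  ((Nat.card {x // F x} : ℕ) : ℝ) ≤
    ((Nat.card {x // F x ∧ P.val r x ≠ 1 ∨ ¬ F x ∧ P.val r x ≠ 0} : ℕ) : ℝ)
      + 2 * 2 ^ n * Y + 8 * B * (2 ^ E + S * 2 ^ m) * (3 * s + 1)

/-- [Fn4] The joint final statement. PROOF as `STD/Fin3.lean` with the constant `3200`. -/
def St_Fn4 : Prop := ∃ C : ℝ, ∀ k : ℕ, 2 ≤ k → ∃ n₀ : ℕ, ∀ n : ℕ, n₀ ≤ n →
  ∃ φ : CNF n, φ.length ≤ 2 ^ k * n ∧ (∀ cl ∈ φ, cl.length ≤ k) ∧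
    (2 : ℝ) ^ ((1 - C * (Real.log k ^ 2 / k)) * n) ≤ Nat.card {x : Fin n → Bool // Sat φ x} ∧
    (∀ (K : Type) [Field K] (s m : ℕ) (P : SProgram K n s m) (r : Fin s),
      ((Nat.card {x : Fin n → Bool // Sat φ x ∧ P.val r x ≠ 1 ∨ ¬ Sat φ x ∧ P.val r x ≠ 0} : ℕ) : ℝ)
        ≤ (1 - (2 : ℝ) ^ (-(Real.log k ^ 2 / k * n))) * ((Nat.card {x : Fin n → Bool // Sat φ x} : ℕ) : ℝ) →
      (2 : ℝ) ^ ((1 - C * (Real.log k ^ 2 / k)) * n) ≤ s * 2 ^ m) ∧
    (∀ (q m s : ℕ) (D : SDnnf n q m s) (r : Fin s), (∀ x z, D.val r x z → Sat φ x) →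
      (2 : ℝ) ^ (-(Real.log k ^ 2 / k * n)) * ((Nat.card {x : Fin n → Bool // Sat φ x} : ℕ) : ℝ)
        ≤ ((Nat.card {x : Fin n → Bool // ∃ z, D.val r x z} : ℕ) : ℝ) →
      (2 : ℝ) ^ ((1 - C * (Real.log k ^ 2 / k)) * n) ≤ s * 2 ^ m) ∧
    (∀ (m s : ℕ) (D : SDdnnf n m s) (r : Fin s),
      ((Nat.card {x : Fin n → Bool // ¬ (D.val r x ↔ Sat φ x)} : ℕ) : ℝ)
        ≤ (1 - (2 : ℝ) ^ (-(Real.log k ^ 2 / k * n))) * ((Nat.card {x : Fin n → Bool // Sat φ x} : ℕ) : ℝ) →
      (2 : ℝ) ^ ((1 - C * (Real.log k ^ 2 / k)) * n) ≤ s * 2 ^ m)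

end Pool.Agent.STS
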