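import Pool.Agent.STD.Box
import Pool.Agent.STS.Defs

/-!
# DNNFs with tractable leaves which imply `F`
-/

set_option autoImplicit false

namespace Pool.Agent.STS

open Finset Pool.Agent.STH Pool.Agent.STD

variable {n q m s : ℕ}

/-- the value of a node depends on its variables only -/
lemma WlkS_dep (D : SDnnf n q m s) (v : Fin s) : ∀ x x' z z', (∀ i ∈ D.vars v, x i = x' i) →
    (∀ j ∈ D.aux v, z j = z' j) → (D.val v x z ↔ D.val v x' z') := by
  induction v using WellFoundedLT.induction with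
  | ind v ih =>
    rcases D.ok v with h | ⟨a, b, ha, hb, _, _, hv, hx, h⟩ | ⟨a, b, ha, hb, hv, hx, h⟩
    · exact h.2
    · intro x x' z z' h1 h2
      rw [h, h, ih a ha x x' z z' (fun i hi => h1 i (by rw [hv]; exact mem_union_left _ hi))
        (fun i hi => h2 i (by rw [hx]; exact mem_union_left _ hi)),
        ih b hb x x' z z' (fun i hi => h1 i (by rw [hv]; exact mem_union_right _ hi))
        (fun i hi => h2 i (by rw [hx]; exact mem_union_right _ hi))]
    · intro x x' z z' h1 h2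
      rw [h, h, ih a ha x x' z z' (fun i hi => h1 i (by rw [hv]; exact mem_union_left _ hi))
        (fun i hi => h2 i (by rw [hx]; exact mem_union_left _ hi)),
        ih b hb x x' z z' (fun i hi => h1 i (by rw [hv]; exact mem_union_right _ hi))
        (fun i hi => h2 i (by rw [hx]; exact mem_union_right _ hi))]

/-- every accepted pair of `v` which agrees with `(x, z)` off `v` is accepted by `r`. -/
def WlkS_Inv (D : SDnnf n q m s) (r v : Fin s) (x : Pt n) (z : Pt q) : Prop :=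
  D.val v x z ∧ ∀ y w, Off (D.vars v) x y → Off (D.aux v) z w → D.val v y w → D.val r y w

open Classical in
/-- the points which use the node `v` -/
noncomputable def WlkS_Tv (D : SDnnf n q m s) (r v : Fin s) : Finset (Pt n) :=
  univ.filter fun x => ∃ z, WlkS_Inv D r v x z

open Classical in
/-- the points which use the WlkS_edge from `u` to `c` -/
noncomputable def WlkS_Te (D : SDnnf n q m s) (r u c : Fin s) : Finset (Pt n) :=
  univ.filter fun x => ∃ z, WlkS_Inv D r u x z ∧ D.val c x z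

lemma WlkS_off_refl {N : ℕ} (R : Finset (Fin N)) (x : Pt N) : Off R x x := fun _ _ => rfl

lemma WlkS_off_trans {N : ℕ} {R : Finset (Fin N)} {x y z : Pt N} (h : Off R x y) (h' : Off R y z) :
    Off R x z := fun i hi => (h' i hi).trans (h i hi)

lemma WlkS_off_mono {N : ℕ} {R R' : Finset (Fin N)} (hR : R ⊆ R') {x y : Pt N} (h : Off R x y) :
    Off R' x y := fun i hi => h i fun h' => hi (hR h')

lemma WlkS_mem_Tv {D : SDnnf n q m s} {r v : Fin s} {x : Pt n} :
    x ∈ WlkS_Tv D r v ↔ ∃ z, WlkS_Inv D r v x z := by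
  classical
  simp [WlkS_Tv]

lemma WlkS_mem_Te {D : SDnnf n q m s} {r u c : Fin s} {x : Pt n} :
    x ∈ WlkS_Te D r u c ↔ ∃ z, WlkS_Inv D r u x z ∧ D.val c x z := by
  classical
  simp [WlkS_Te]

lemma WlkS_mem_Tv_root {D : SDnnf n q m s} {r : Fin s} {x : Pt n} :
    x ∈ WlkS_Tv D r r ↔ ∃ z, D.val r x z := by
  rw [WlkS_mem_Tv]
  constructor
  · rintro ⟨z, hz⟩
    exact ⟨z, hz.1⟩
  · rintro ⟨z, hz⟩
    exact ⟨z, hz, fun y w _ _ h => h⟩

lemma WlkS_isBox_Tv (D : SDnnf n q m s) (r v : Fin s) : IsBox (D.vars v) (WlkS_Tv D r v) := by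
  intro x hx y hy
  rw [WlkS_mem_Tv] at hx hy ⊢
  obtain ⟨z, hz⟩ := hx
  obtain ⟨z', hz'⟩ := hy
  refine ⟨mix (D.aux v) z z', ?_, ?_⟩
  · refine (WlkS_dep D v _ _ _ _ ?_ ?_).1 hz.1
    · intro i hi
      simp [mix, hi]
    · intro i hi
      simp [mix, hi]
  · intro y' w h1 h2 h3
    exact hz'.2 y' w (WlkS_off_trans (mix_off _ _ _) h1) (WlkS_off_trans (mix_off _ _ _) h2) h3

lemma WlkS_Tv_F {D : SDnnf n q m s} {r v : Fin s} {F : Pt n → Prop} (h : ∀ x z, D.val r x z → F x)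
    {x : Pt n} (hx : x ∈ WlkS_Tv D r v) : F x := by
  rw [WlkS_mem_Tv] at hx
  obtain ⟨z, hz⟩ := hx
  exact h x z (hz.2 x z (WlkS_off_refl _ _) (WlkS_off_refl _ _) hz.1)

open Classical in
lemma WlkS_thin {D : SDnnf n q m s} {r v : Fin s} {F : Pt n → Prop} {S : ℕ} (hF : Dense F S)
    (h : ∀ x z, D.val r x z → F x) :
    cw (D.vars v) (WlkS_Tv D r v) ≤ S ∨ cw (D.vars v)ᶜ (WlkS_Tv D r v) ≤ S := by
  by_contra hc
  push Not at hc
  have h1 := hF (D.vars v) (WlkS_Tv D r v) (WlkS_isBox_Tv D r v) hc.1 hc.2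
  rw [filter_true_of_mem (fun x hx => WlkS_Tv_F h hx)] at h1
  have h2 : (WlkS_Tv D r v).card = 0 := by omega
  rw [card_eq_zero] at h2
  rw [h2] at hc
  simp [cw_def] at hc

/-- both inputs of a conjunction are used -/
lemma WlkS_Inv_and {D : SDnnf n q m s} {r u a b : Fin s} (h1 : Disjoint (D.vars a) (D.vars b))
    (h2 : Disjoint (D.aux a) (D.aux b)) (h3 : D.vars u = D.vars a ∪ D.vars b)
    (h4 : D.aux u = D.aux a ∪ D.aux b) (h5 : ∀ x z, D.val u x z ↔ D.val a x z ∧ D.val b x z)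
    {x : Pt n} {z : Pt q} (h : WlkS_Inv D r u x z) : WlkS_Inv D r a x z := by
  refine ⟨((h5 x z).1 h.1).1, ?_⟩
  intro y w hy hw hv
  refine h.2 y w (WlkS_off_mono (by rw [h3]; exact subset_union_left) hy)
    (WlkS_off_mono (by rw [h4]; exact subset_union_left) hw) ((h5 y w).2 ⟨hv, ?_⟩)
  refine (WlkS_dep D b _ _ _ _ ?_ ?_).1 ((h5 x z).1 h.1).2
  · intro i hi
    exact (hy i fun h' => disjoint_left.1 h1 h' hi).symm
  · intro i hi
    exact (hw i fun h' => disjoint_left.1 h2 h' hi).symm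

lemma WlkS_Inv_or {D : SDnnf n q m s} {r u c : Fin s} (h3 : D.vars c ⊆ D.vars u)
    (h4 : D.aux c ⊆ D.aux u) (h5 : ∀ x z, D.val c x z → D.val u x z)
    {x : Pt n} {z : Pt q} (h : WlkS_Inv D r u x z) (hc : D.val c x z) : WlkS_Inv D r c x z := by
  refine ⟨hc, ?_⟩
  intro y w hy hw hv
  exact h.2 y w (WlkS_off_mono h3 hy) (WlkS_off_mono h4 hw) (h5 y w hv)

/-- the WlkS_edge from a disjunction to a WlkS_thin input is small. -/
lemma WlkS_edge {D : SDnnf n q m s} {r u c : Fin s} {F : Pt n → Prop} {S : ℕ} (hS : 1 ≤ S)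
    (hF : Dense F S) (h : ∀ x z, D.val r x z → F x) (h3 : D.vars c ⊆ D.vars u)
    (h4 : D.aux c ⊆ D.aux u) (h5 : ∀ x z, D.val c x z → D.val u x z)
    (hc : cw (D.vars c) (WlkS_Tv D r c) ≤ S) (hu : cw (D.vars u)ᶜ (WlkS_Tv D r u) ≤ S) :
    (WlkS_Te D r u c).card ≤ 2 * S ^ 3 := by
  classical
  have k1 : WlkS_Te D r u c ⊆ WlkS_Tv D r u := by
    intro x hx
    rw [WlkS_mem_Te] at hx
    obtain ⟨z, hz, _⟩ := hx
    exact WlkS_mem_Tv.2 ⟨z, hz⟩
  have k2 : WlkS_Te D r u c ⊆ WlkS_Tv D r c := by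
    intro x hx
    rw [WlkS_mem_Te] at hx
    obtain ⟨z, hz, hz'⟩ := hx
    exact WlkS_mem_Tv.2 ⟨z, WlkS_Inv_or h3 h4 h5 hz hz'⟩
  have k3 : Cl (D.vars u \ D.vars c) (WlkS_Te D r u c) := by
    intro x hx y hy
    rw [WlkS_mem_Te] at hx ⊢
    obtain ⟨z, hz, hz'⟩ := hx
    have hyc : D.val c y z := by
      refine (WlkS_dep D c _ _ _ _ ?_ (fun _ _ => rfl)).1 hz'
      intro i hi
      exact (hy i fun h' => (mem_sdiff.1 h').2 hi).symm
    refine ⟨z, ⟨h5 y z hyc, ?_⟩, hyc⟩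
    intro y' w h1 h2 h6
    exact hz.2 y' w (WlkS_off_trans (WlkS_off_mono sdiff_subset hy) h1) h2 h6
  have hun : D.vars c ∪ (D.vars u)ᶜ ∪ (D.vars u \ D.vars c) = univ := by
    ext i
    simp only [mem_union, mem_compl, mem_sdiff, mem_univ, iff_true]
    tauto
  rcases piece hS hF (X := D.vars c) (Y := (D.vars u)ᶜ) (E := D.vars u \ D.vars c)
    (T := WlkS_Te D r u c) hun ((cw_mono _ k2).trans hc) ((cw_mono _ k1).trans hu) k3 with h6 | h6
  · rw [filter_true_of_mem (fun x hx => WlkS_Tv_F h (k1 hx))] at h6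
    omega
  · exact h6

lemma WlkS_card_le_two (W : Finset (Fin n)) (T : Finset (Pt n)) : T.card ≤ cw W T * cw Wᶜ T := by
  calc T.card = cw (W ∪ Wᶜ) T := by rw [union_compl, cw_univ]
    _ ≤ _ := cw_union_le _ _ _

lemma WlkS_idem {N : ℕ} {t : Fin N → Bool → Bool → Bool → Bool} (ht : IsSch t) (i : Fin N)
    (b : Bool) : t i b b b = b := by
  rcases ht i with h | h | h | h
  · rw [h]; cases b <;> rfl
  · rw [h]; cases b <;> rfl
  · rw [h]; cases b <;> rfl
  · rw [h]; cases b <;> rfl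

/-- a leaf is thin -/
lemma WlkS_leaf {D : SDnnf n q m s} {r u : Fin s} {F : Pt n → Prop} {S : ℕ} (hT : ThinCl F S)
    (h : ∀ x z, D.val r x z → F x)
    (hA : ∃ A : Fin (2 ^ m) → (Fin n → Bool) → Prop, (∀ j, SchClosed (A j)) ∧
      ∀ x, (∃ z, D.val u x z) ↔ ∃ j, A j x)
    (hd : ∀ x x' z z', (∀ i ∈ D.vars u, x i = x' i) → (∀ j ∈ D.aux u, z j = z' j) →
        (D.val u x z ↔ D.val u x' z'))
    {x₀ : Pt n} (hx₀ : x₀ ∈ WlkS_Tv D r u) : cw (D.vars u) (WlkS_Tv D r u) ≤ 2 ^ m * S := by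
  classical
  obtain ⟨A, hA1, hA2⟩ := hA
  obtain ⟨z₀, hz₀⟩ := WlkS_mem_Tv.1 hx₀
  set X : Fin (2 ^ m) → Finset (Pt n) := fun j =>
    univ.filter fun y => Off (D.vars u) x₀ y ∧ A j y with hX
  have hXc : ∀ j, (X j).card ≤ S := by
    intro j
    obtain ⟨t, ht, htA⟩ := hA1 j
    refine hT t ht (X j) ?_ ?_
    · intro y hy
      rw [hX, mem_filter] at hy
      obtain ⟨z, hz⟩ := (hA2 y).2 ⟨j, hy.2.2⟩
      refine h y (mix (D.aux u) z z₀) (hz₀.2 y _ hy.2.1 (mix_off _ _ _) ?_)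
      refine (hd _ _ _ _ (fun _ _ => rfl) ?_).1 hz
      intro i hi
      simp [mix, hi]
    · intro x hx y hy w hw
      rw [hX, mem_filter] at hx hy hw ⊢
      refine ⟨mem_univ _, ?_, htA x y w hx.2.2 hy.2.2 hw.2.2⟩
      intro i hi
      show t i (x i) (y i) (w i) = x₀ i
      rw [hx.2.1 i hi, hy.2.1 i hi, hw.2.1 i hi]
      exact WlkS_idem ht i _
  have hsub : (WlkS_Tv D r u).image (fun x => mix (D.vars u) x fun _ => false) ⊆
      (univ.biUnion X).image (fun x => mix (D.vars u) x fun _ => false) := by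
    intro p hp
    rw [mem_image] at hp ⊢
    obtain ⟨x, hx, rfl⟩ := hp
    obtain ⟨z, hz⟩ := WlkS_mem_Tv.1 hx
    refine ⟨mix (D.vars u) x x₀, ?_, ?_⟩
    · have h1 : D.val u (mix (D.vars u) x x₀) z := by
        refine (hd _ _ _ _ ?_ (fun _ _ => rfl)).1 hz.1
        intro i hi
        simp [mix, hi]
      obtain ⟨j, hj⟩ := (hA2 _).1 ⟨z, h1⟩
      rw [mem_biUnion]
      refine ⟨j, mem_univ _, ?_⟩
      rw [hX, mem_filter]
      exact ⟨mem_univ _, mix_off _ _ _, hj⟩
    · funext i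
      by_cases hi : i ∈ D.vars u <;> simp [mix, hi]
  calc cw (D.vars u) (WlkS_Tv D r u)
      = ((WlkS_Tv D r u).image fun x => mix (D.vars u) x fun _ => false).card := rfl
    _ ≤ ((univ.biUnion X).image fun x => mix (D.vars u) x fun _ => false).card :=
        card_le_card hsub
    _ ≤ (univ.biUnion X).card := card_image_le
    _ ≤ ∑ j, (X j).card := card_biUnion_le
    _ ≤ ∑ _j : Fin (2 ^ m), S := sum_le_sum fun j _ => hXc j
    _ = 2 ^ m * S := by simp

/-- **DNNFs which imply a formula without thick boxes are large.** -/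
theorem thm_WlkS : St_WlkS := by
  classical
  intro n q m s D r F S hS hF hT h
  have hG : Nat.card {x // ∃ z, D.val r x z} = (WlkS_Tv D r r).card := by
    rw [Nat.card_eq_fintype_card, Fintype.card_subtype]
    congr 1
    ext x
    rw [WlkS_mem_Tv_root]
    simp
  rw [hG]
  have hm : 1 ≤ 2 ^ m := Nat.one_le_two_pow
  have hS3 : S ≤ S ^ 3 := by
    calc S = S * 1 := by ring
      _ ≤ S * S ^ 2 := Nat.mul_le_mul_left _ (Nat.one_le_pow _ _ (by omega))
      _ = S ^ 3 := by ring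
  by_cases hr : cw (D.vars r) (WlkS_Tv D r r) ≤ S
  · -- the root is WlkS_thin
    have hcl : Cl (D.vars r)ᶜ (WlkS_Tv D r r) := by
      intro x hx y hy
      rw [WlkS_mem_Tv_root] at hx ⊢
      obtain ⟨z, hz⟩ := hx
      refine ⟨z, (WlkS_dep D r _ _ _ _ ?_ (fun _ _ => rfl)).1 hz⟩
      intro i hi
      exact (hy i (by simpa using hi)).symm
    have h0 : cw (∅ : Finset (Fin n)) (WlkS_Tv D r r) ≤ S := (cw_empty_le _).trans hS
    rcases piece hS hF (X := D.vars r) (Y := ∅) (E := (D.vars r)ᶜ) (T := WlkS_Tv D r r)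
      (by rw [union_empty, union_compl]) hr h0 hcl with h6 | h6
    · rw [filter_true_of_mem (fun x hx => WlkS_Tv_F h hx)] at h6
      omega
    · calc (WlkS_Tv D r r).card ≤ 2 * S ^ 3 := h6
        _ = 1 * (2 * S ^ 3 * 1) := by ring
        _ ≤ (s + 1) * (4 * S ^ 3 * 2 ^ m) := by
            refine Nat.mul_le_mul (by omega) (Nat.mul_le_mul (by omega) hm)
  push Not at hr
  -- the stopping node
  set St : Fin s → Finset (Pt n) := fun u => (WlkS_Tv D r u).filter fun x =>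
    S < cw (D.vars u) (WlkS_Tv D r u) ∧ ∀ w < u, x ∈ WlkS_Tv D r w → cw (D.vars w) (WlkS_Tv D r w) ≤ S
    with hSt
  have hcov : WlkS_Tv D r r ⊆ univ.biUnion St := by
    intro x hx
    set N : Finset (Fin s) := univ.filter fun u => x ∈ WlkS_Tv D r u ∧ S < cw (D.vars u) (WlkS_Tv D r u)
      with hN
    have hne : N.Nonempty := ⟨r, by simp [hN, hx, hr]⟩
    have hmin : N.min' hne ∈ univ ∧ x ∈ WlkS_Tv D r (N.min' hne) ∧
        S < cw (D.vars (N.min' hne)) (WlkS_Tv D r (N.min' hne)) := mem_filter.1 (N.min'_mem hne)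
    rw [mem_biUnion]
    refine ⟨N.min' hne, mem_univ _, ?_⟩
    rw [hSt, mem_filter]
    refine ⟨hmin.2.1, hmin.2.2, ?_⟩
    intro w hw hxw
    by_contra hc
    push Not at hc
    have : w ∈ N := by simp [hN, hxw, hc]
    exact absurd (N.min'_le w this) (not_le.2 hw)
  have hSt' : ∀ u, (St u).card ≤ 4 * S ^ 3 * 2 ^ m := by
    intro u
    rcases (St u).eq_empty_or_nonempty with h0 | ⟨x₀, hx₀⟩
    · rw [h0]; simp
    rw [hSt, mem_filter] at hx₀
    have hbu : cw (D.vars u)ᶜ (WlkS_Tv D r u) ≤ S := by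
      rcases WlkS_thin (v := u) hF h with h1 | h1
      · omega
      · exact h1
    have hsub : (St u).card ≤ (WlkS_Tv D r u).card := card_le_card (filter_subset _ _)
    rcases D.ok u with hl | ⟨a, b, ha, hb, h1, h2, h3, h4, h5⟩ | ⟨a, b, ha, hb, h3, h4, h5⟩
    · calc (St u).card ≤ (WlkS_Tv D r u).card := hsub
        _ ≤ cw (D.vars u) (WlkS_Tv D r u) * cw (D.vars u)ᶜ (WlkS_Tv D r u) := WlkS_card_le_two _ _
        _ ≤ (2 ^ m * S) * S := Nat.mul_le_mul (WlkS_leaf hT h hl.1 hl.2 hx₀.1) hbu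
        _ ≤ (2 ^ m * S) * (4 * S ^ 2) := by
            refine Nat.mul_le_mul_left _ ?_
            calc S = S * 1 := by ring
              _ ≤ S * (4 * S) := Nat.mul_le_mul_left _ (by omega)
              _ = 4 * S ^ 2 := by ring
        _ = 4 * S ^ 3 * 2 ^ m := by ring
    · -- conjunction
      have ka : WlkS_Tv D r u ⊆ WlkS_Tv D r a := by
        intro x hx
        rw [WlkS_mem_Tv] at hx ⊢
        obtain ⟨z, hz⟩ := hx
        exact ⟨z, WlkS_Inv_and h1 h2 h3 h4 h5 hz⟩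
      have kb : WlkS_Tv D r u ⊆ WlkS_Tv D r b := by
        intro x hx
        rw [WlkS_mem_Tv] at hx ⊢
        obtain ⟨z, hz⟩ := hx
        exact ⟨z, WlkS_Inv_and h1.symm h2.symm (by rw [h3, union_comm]) (by rw [h4, union_comm])
          (fun x z => by rw [h5]; exact and_comm) hz⟩
      have la := hx₀.2.2 a ha (ka hx₀.1)
      have lb := hx₀.2.2 b hb (kb hx₀.1)
      calc (St u).card ≤ (WlkS_Tv D r u).card := hsub
        _ ≤ cw (D.vars u) (WlkS_Tv D r u) * cw (D.vars u)ᶜ (WlkS_Tv D r u) := WlkS_card_le_two _ _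
        _ ≤ (cw (D.vars a) (WlkS_Tv D r u) * cw (D.vars b) (WlkS_Tv D r u)) * S := by
            refine Nat.mul_le_mul ?_ hbu
            rw [h3]
            exact cw_union_le _ _ _
        _ ≤ (S * S) * S := Nat.mul_le_mul_right _
            (Nat.mul_le_mul ((cw_mono _ ka).trans la) ((cw_mono _ kb).trans lb))
        _ = 1 * S ^ 3 * 1 := by ring
        _ ≤ 4 * S ^ 3 * 2 ^ m := Nat.mul_le_mul (Nat.mul_le_mul_right _ (by norm_num)) hm
    · -- disjunction
      have hsub2 : St u ⊆ (if cw (D.vars a) (WlkS_Tv D r a) ≤ S then WlkS_Te D r u a else ∅) ∪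
          (if cw (D.vars b) (WlkS_Tv D r b) ≤ S then WlkS_Te D r u b else ∅) := by
        intro x hx
        rw [hSt, mem_filter, WlkS_mem_Tv] at hx
        obtain ⟨⟨z, hz⟩, _, hx2⟩ := hx
        rw [mem_union]
        rcases (h5 x z).1 hz.1 with hc | hc
        · left
          have hi : WlkS_Inv D r a x z := WlkS_Inv_or (by rw [h3]; exact subset_union_left)
            (by rw [h4]; exact subset_union_left) (fun x z hh => (h5 x z).2 (Or.inl hh)) hz hc
          rw [if_pos (hx2 a ha (WlkS_mem_Tv.2 ⟨z, hi⟩))]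
          exact WlkS_mem_Te.2 ⟨z, hz, hc⟩
        · right
          have hi : WlkS_Inv D r b x z := WlkS_Inv_or (by rw [h3]; exact subset_union_right)
            (by rw [h4]; exact subset_union_right) (fun x z hh => (h5 x z).2 (Or.inr hh)) hz hc
          rw [if_pos (hx2 b hb (WlkS_mem_Tv.2 ⟨z, hi⟩))]
          exact WlkS_mem_Te.2 ⟨z, hz, hc⟩
      have ea : (if cw (D.vars a) (WlkS_Tv D r a) ≤ S then WlkS_Te D r u a else ∅).card ≤ 2 * S ^ 3 := by
        split_ifs with hh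
        · exact WlkS_edge hS hF h (by rw [h3]; exact subset_union_left)
            (by rw [h4]; exact subset_union_left) (fun x z hh => (h5 x z).2 (Or.inl hh)) hh hbu
        · simp
      have eb : (if cw (D.vars b) (WlkS_Tv D r b) ≤ S then WlkS_Te D r u b else ∅).card ≤ 2 * S ^ 3 := by
        split_ifs with hh
        · exact WlkS_edge hS hF h (by rw [h3]; exact subset_union_right)
            (by rw [h4]; exact subset_union_right) (fun x z hh => (h5 x z).2 (Or.inr hh)) hh hbu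
        · simp
      calc (St u).card ≤ _ := card_le_card hsub2
        _ ≤ _ := card_union_le _ _
        _ ≤ 2 * S ^ 3 + 2 * S ^ 3 := add_le_add ea eb
        _ = 4 * S ^ 3 * 1 := by ring
        _ ≤ 4 * S ^ 3 * 2 ^ m := Nat.mul_le_mul_left _ hm
  calc (WlkS_Tv D r r).card ≤ (univ.biUnion St).card := card_le_card hcov
    _ ≤ ∑ u, (St u).card := card_biUnion_le
    _ ≤ ∑ _u : Fin s, 4 * S ^ 3 * 2 ^ m := sum_le_sum fun u _ => hSt' u
    _ = s * (4 * S ^ 3 * 2 ^ m) := by simp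
    _ ≤ (s + 1) * (4 * S ^ 3 * 2 ^ m) := Nat.mul_le_mul_right _ (by omega)

end Pool.Agent.STS
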