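import Pool.Agent.STS.Defs

/-!
# The random formula with the three properties (after helper77, STH/Ran.lean, and STD/Rn2.lean)
-/

set_option autoImplicit false

namespace Pool.Agent.STS

open Finset Pool.Agent.STH Pool.Agent.STD

/-- the number of clauses which are false at `x` -/
private lemma Rn3_false {n k : ℕ} (x : Pt n) :
    Fintype.card {c : Fin k → Fin n × Bool // ∀ j, ¬ x (c j).1 = (c j).2} = n ^ k := by
  classical
  have e : {c : Fin k → Fin n × Bool // ∀ j, ¬ x (c j).1 = (c j).2} ≃ (Fin k → Fin n) :=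
    { toFun := fun c j => (c.1 j).1
      invFun := fun f => ⟨fun j => (f j, !x (f j)), fun j => by
        show ¬ x (f j) = !x (f j)
        cases x (f j) <;> simp⟩
      left_inv := fun c => by
        apply Subtype.ext
        funext j
        show ((c.1 j).1, !x (c.1 j).1) = c.1 j
        have h := c.2 j
        apply Prod.ext
        · rfl
        · show (!x (c.1 j).1) = (c.1 j).2
          revert h
          cases x (c.1 j).1 <;> cases (c.1 j).2 <;> simp
      right_inv := fun f => rfl }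
  rw [Fintype.card_congr e, Fintype.card_fun, Fintype.card_fin, Fintype.card_fin]

private lemma Rn3_true {n k : ℕ} (x : Pt n) :
    ((Fintype.card {c : Fin k → Fin n × Bool // ∃ j, x (c j).1 = (c j).2} : ℕ) : ℝ) =
      (2 * (n : ℝ)) ^ k - (n : ℝ) ^ k := by
  classical
  have h1 := Fintype.card_subtype_compl (fun c : Fin k → Fin n × Bool => ∃ j, x (c j).1 = (c j).2)
  have h2 : Fintype.card {c : Fin k → Fin n × Bool // ¬ ∃ j, x (c j).1 = (c j).2} = n ^ k := by
    rw [← Rn3_false (k := k) x]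
    exact Fintype.card_congr (Equiv.subtypeEquivRight fun c => by push Not; rfl)
  have h3 : Fintype.card {c : Fin k → Fin n × Bool // ∃ j, x (c j).1 = (c j).2} ≤
      Fintype.card (Fin k → Fin n × Bool) := Fintype.card_subtype_le _
  rw [h2] at h1
  have h4 : Fintype.card (Fin k → Fin n × Bool) = (n * 2) ^ k := by
    rw [Fintype.card_fun, Fintype.card_prod, Fintype.card_fin, Fintype.card_bool, Fintype.card_fin]
  rw [h4] at h1 h3
  have h5 : ((n ^ k : ℕ) : ℝ) = ((n * 2) ^ k : ℕ) -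
      (Fintype.card {c : Fin k → Fin n × Bool // ∃ j, x (c j).1 = (c j).2} : ℕ) := by
    rw [h1, Nat.cast_sub h3]
  push_cast at h5
  rw [mul_comm (2 : ℝ)]
  linarith

private lemma Rn3_mod {n k M : ℕ} (x : Pt n) :
    ((Nat.card {ω : Fm n k M // Mod ω x} : ℕ) : ℝ) =
      ((2 * (n : ℝ)) ^ k - (n : ℝ) ^ k) ^ M := by
  classical
  have e : {ω : Fm n k M // Mod ω x} ≃
      (Fin M → {c : Fin k → Fin n × Bool // ∃ j, x (c j).1 = (c j).2}) :=
    Equiv.subtypePiEquivPi (β := fun _ : Fin M => Fin k → Fin n × Bool)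
      (p := fun _ (c : Fin k → Fin n × Bool) => ∃ j, x (c j).1 = (c j).2)
  rw [Nat.card_congr e, Nat.card_eq_fintype_card, Fintype.card_fun, Fintype.card_fin,
    Nat.cast_pow, Rn3_true]

private lemma Rn3_total {n k M : ℕ} : ((Fintype.card (Fm n k M) : ℕ) : ℝ) =
    (2 * (n : ℝ)) ^ (k * M) := by
  rw [Fintype.card_fun, Fintype.card_fun, Fintype.card_prod, Fintype.card_fin, Fintype.card_bool,
    Fintype.card_fin, Fintype.card_fin, pow_mul]
  push_cast
  rw [mul_comm (2 : ℝ)]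

/-- double counting -/
private lemma Rn3_double {n k M : ℕ} :
    ∑ ω : Fm n k M, ((Nat.card {x // Mod ω x} : ℕ) : ℝ) =
      2 ^ n * ((2 * (n : ℝ)) ^ k - (n : ℝ) ^ k) ^ M := by
  classical
  have h1 : ∀ ω : Fm n k M, ((Nat.card {x // Mod ω x} : ℕ) : ℝ) =
      ∑ x : Pt n, if Mod ω x then (1 : ℝ) else 0 := by
    intro ω
    rw [Nat.card_eq_fintype_card, Fintype.card_subtype, Finset.card_filter]
    push_cast
    rfl
  have h2 : ∀ x : Pt n, ((Nat.card {ω : Fm n k M // Mod ω x} : ℕ) : ℝ) =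
      ∑ ω : Fm n k M, if Mod ω x then (1 : ℝ) else 0 := by
    intro x
    rw [Nat.card_eq_fintype_card, Fintype.card_subtype, Finset.card_filter]
    push_cast
    rfl
  rw [Finset.sum_congr rfl fun ω _ => h1 ω, Finset.sum_comm,
    Finset.sum_congr rfl fun x _ => ((h2 x).symm.trans (Rn3_mod x)), Finset.sum_const,
    Finset.card_univ, nsmul_eq_mul]
  congr 1
  rw [Fintype.card_fun, Fintype.card_bool, Fintype.card_fin]
  push_cast
  rfl

/-- `1 - y ≥ exp (-(6/5) y)` for `y ≤ 1/4` -/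
private lemma Rn3_log {y : ℝ} (h0 : 0 ≤ y) (h1 : y ≤ 1 / 4) :
    Real.exp (-(6 / 5 * y)) ≤ 1 - y := by
  have h2 : 0 < 1 - y := by linarith
  have h3 := Real.quadratic_le_exp_of_nonneg (show (0 : ℝ) ≤ 6 / 5 * y by linarith)
  rw [Real.exp_neg, inv_le_comm₀ (Real.exp_pos _) h2, inv_le_iff_one_le_mul₀ h2]
  have h4 := mul_le_mul_of_nonneg_left h3 h2.le
  have h5 : 0 ≤ y * (1 / 4 - y) := mul_nonneg h0 (by linarith)
  have h6 : 0 ≤ y * (y * (1 / 4 - y)) := mul_nonneg h0 h5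
  nlinarith

theorem thm_Rn3 (hO : Pool.Agent.STH.St_One) (hG : Pool.Agent.STD.St_Grd) (hT : St_Tri) :
    St_Rn3 := by
  classical
  intro Δ θ τ k p hΔ hθ hθ' hτ hτ1 hp hk hpk hpk4
  have hpk5 : (p : ℝ) ^ 4 * (1 - τ) ^ k ≤ 1 := by
    refine le_trans ?_ hpk4
    apply mul_le_mul_of_nonneg_left _ (by positivity)
    exact pow_le_pow_left₀ (by linarith) (by linarith) k
  obtain ⟨n₀, hn₀⟩ := hO Δ θ τ k p hΔ hθ hθ' hτ hp hk hpk
  obtain ⟨n₁, hn₁⟩ := hG Δ τ k p hΔ (by linarith) hτ hτ1 hp hk hpk5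
  obtain ⟨n₂, hn₂⟩ := hT Δ (τ / 33) k p hΔ (by linarith) (by linarith) (by linarith) hp hk hpk4
  refine ⟨max (max n₀ n₁) (max (max n₂ ⌈1056 / τ⌉₊) 2), fun n hn a d M ha hd hdn hM => ?_⟩
  have hn0 : n₀ ≤ n := ((le_max_left _ _).trans (le_max_left _ _)).trans hn
  have hn0' : n₁ ≤ n := ((le_max_right _ _).trans (le_max_left _ _)).trans hn
  have hnr : max (max n₂ ⌈1056 / τ⌉₊) 2 ≤ n := (le_max_right _ _).trans hn
  have hn0'' : n₂ ≤ n := ((le_max_left _ _).trans (le_max_left _ _)).trans hnr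
  have hnc : ⌈1056 / τ⌉₊ ≤ n := ((le_max_right _ _).trans (le_max_left _ _)).trans hnr
  have hn2 : 2 ≤ n := (le_max_right _ _).trans hnr
  have hτn : 1056 ≤ τ * n := by
    have h1 : 1056 / τ ≤ (n : ℝ) := (Nat.le_ceil _).trans (by exact_mod_cast hnc)
    have h2 := (div_le_iff₀ hτ).1 h1
    linarith
  have hd32 : τ / 33 * n ≤ ((d / 32 : ℕ) : ℝ) := by
    have h1 : d < 32 * (d / 32) + 32 := by omega
    have h2 : (d : ℝ) < 32 * ((d / 32 : ℕ) : ℝ) + 32 := by exact_mod_cast h1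
    linarith
  have hn1 : 1 ≤ n := by omega
  have hnR2 : (2 : ℝ) ≤ n := by exact_mod_cast hn2
  have hnR : (1 : ℝ) ≤ n := by exact_mod_cast hn1
  obtain ⟨W, hW⟩ : ∃ W : ℝ, W = (2 * (n : ℝ)) ^ (k * M) := ⟨_, rfl⟩
  have hWpos : 0 < W := by rw [hW]; positivity
  obtain ⟨Y, hY⟩ : ∃ Y : ℝ, Y = Real.exp (-(5 / 4 * Δ * n)) := ⟨_, rfl⟩
  have hYpos : 0 < Y := by rw [hY]; exact Real.exp_pos _
  have hΔs : Δ ≤ 1 / 128 := by linarith
  -- the total number of models
  have htot : 2 ^ n * (W * Y) ≤ ∑ ω : Fm n k M, ((Nat.card {x // Mod ω x} : ℕ) : ℝ) := by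
    rw [Rn3_double]
    apply mul_le_mul_of_nonneg_left _ (by positivity)
    have e1 : ((2 * (n : ℝ)) ^ k - (n : ℝ) ^ k) ^ M = W * (1 - (1 / 2) ^ k) ^ M := by
      rw [hW, pow_mul, ← mul_pow]
      congr 1
      rw [mul_sub, mul_one, ← mul_pow]
      congr 2
      ring
    rw [e1]
    apply mul_le_mul_of_nonneg_left _ hWpos.le
    have hy1 : ((1 : ℝ) / 2) ^ k ≤ 1 / 4 := by
      calc ((1 : ℝ) / 2) ^ k ≤ (1 / 2) ^ 2 := pow_le_pow_of_le_one (by norm_num) (by norm_num) hk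
        _ = 1 / 4 := by norm_num
    have hy0 : (0 : ℝ) ≤ (1 / 2) ^ k := by positivity
    have h1 := Rn3_log hy0 hy1
    have h2 : Real.exp (-(6 / 5 * (1 / 2) ^ k)) ^ M ≤ (1 - (1 / 2) ^ k) ^ M :=
      pow_le_pow_left₀ (Real.exp_pos _).le h1 M
    refine le_trans ?_ h2
    rw [hY, ← Real.exp_nat_mul]
    apply Real.exp_le_exp.2
    have h3 : (M : ℝ) ≤ Δ * n * 2 ^ k := by
      rw [hM]
      exact Nat.floor_le (by positivity)
    have h4 : (M : ℝ) * (1 / 2) ^ k ≤ Δ * n := by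
      have h5 := mul_le_mul_of_nonneg_right h3 hy0
      have h6 : Δ * n * 2 ^ k * (1 / 2) ^ k = Δ * n := by
        rw [mul_assoc, ← mul_pow]
        norm_num
      linarith
    have h5 : 0 ≤ Δ * n := by positivity
    nlinarith
  -- the good formulas
  obtain ⟨Gd, hGd⟩ : ∃ Gd : Finset (Fm n k M), Gd = univ.filter fun ω =>
    2 ^ n * Y / 2 ≤ ((Nat.card {x // Mod ω x} : ℕ) : ℝ) := ⟨_, rfl⟩
  have hGood : W * Y / 2 ≤ (Gd.card : ℝ) := by
    have h1 : ∑ ω : Fm n k M, ((Nat.card {x // Mod ω x} : ℕ) : ℝ) ≤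
        ∑ ω : Fm n k M, ((if ω ∈ Gd then (2 : ℝ) ^ n else 0) + 2 ^ n * Y / 2) := by
      apply Finset.sum_le_sum
      intro ω _
      by_cases h : ω ∈ Gd
      · rw [if_pos h]
        have h2 : ((Nat.card {x // Mod ω x} : ℕ) : ℝ) ≤ 2 ^ n := by
          rw [Nat.card_eq_fintype_card]
          have h3 := Fintype.card_subtype_le (fun x : Pt n => Mod ω x)
          rw [Fintype.card_fun, Fintype.card_bool, Fintype.card_fin] at h3
          exact_mod_cast h3
        have h3 : 0 ≤ 2 ^ n * Y / 2 := by positivity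
        linarith
      · rw [if_neg h, zero_add]
        rw [hGd, Finset.mem_filter] at h
        push Not at h
        exact (h (Finset.mem_univ _)).le
    rw [Finset.sum_add_distrib, Finset.sum_const, Finset.card_univ, nsmul_eq_mul, Rn3_total,
      ← Finset.sum_filter, Finset.sum_const, nsmul_eq_mul, ← hW] at h1
    have h4 : (univ.filter fun ω => ω ∈ Gd) = Gd := by
      ext ω
      simp
    rw [h4] at h1
    have h5 : 2 ^ n * (W * Y / 2) ≤ 2 ^ n * (Gd.card : ℝ) := by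
      have := htot.trans h1
      linarith
    exact le_of_mul_le_mul_left h5 (by positivity)
  -- the bad formulas
  obtain ⟨Bd, hBd⟩ : ∃ Bd : Finset (Fm n k M), Bd = univ.filter fun ω =>
    ¬ PropQ (Mod ω) a d (Real.exp (-(3 / 2 * Δ * n))) := ⟨_, rfl⟩
  obtain ⟨I, hI⟩ : ∃ I : Finset (Finset (Fin n) × Pt n × Pt n), I = univ.filter fun q =>
    a ≤ q.1.card ∧ d ≤ dOff q.1 q.2.1 q.2.2 := ⟨_, rfl⟩
  have hBad : (Bd.card : ℝ) ≤ 8 ^ n * (W * Real.exp (-(4 * n))) := by
    have h1 : Bd ⊆ I.biUnion fun q => univ.filter fun ω : Fm n k M =>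
        2 ^ q.1.card * Real.exp (-(3 / 2 * Δ * n)) <
        ((Nat.card {z : Pt n // Off q.1 q.2.1 z ∧ Mod ω z ∧ Mod ω (mix q.1 z q.2.2)} : ℕ) : ℝ) := by
      intro ω hω
      rw [hBd, Finset.mem_filter] at hω
      have h2 := hω.2
      unfold PropQ at h2
      push Not at h2
      obtain ⟨R, hR, x, x', hx, h3⟩ := h2
      rw [Finset.mem_biUnion]
      refine ⟨(R, x, x'), ?_, ?_⟩
      · rw [hI, Finset.mem_filter]
        exact ⟨Finset.mem_univ _, hR, hx⟩
      · rw [Finset.mem_filter]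
        exact ⟨Finset.mem_univ _, h3⟩
    have h2 : (Bd.card : ℝ) ≤ ∑ q ∈ I, (((univ.filter fun ω : Fm n k M =>
        2 ^ q.1.card * Real.exp (-(3 / 2 * Δ * n)) <
        ((Nat.card {z : Pt n // Off q.1 q.2.1 z ∧ Mod ω z ∧ Mod ω (mix q.1 z q.2.2)} : ℕ) :
          ℝ)).card : ℕ) : ℝ) := by
      have h3 := (Finset.card_le_card h1).trans Finset.card_biUnion_le
      exact_mod_cast h3
    have h3 : ∀ q ∈ I, (((univ.filter fun ω : Fm n k M =>
        2 ^ q.1.card * Real.exp (-(3 / 2 * Δ * n)) <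
        ((Nat.card {z : Pt n // Off q.1 q.2.1 z ∧ Mod ω z ∧ Mod ω (mix q.1 z q.2.2)} : ℕ) :
          ℝ)).card : ℕ) : ℝ) ≤ W * Real.exp (-(4 * n)) := by
      intro q hq
      rw [hI, Finset.mem_filter] at hq
      have h4 := hn₀ n hn0 a d M ha hd hM q.1 hq.2.1 q.2.1 q.2.2 hq.2.2
      rw [Nat.card_eq_fintype_card, Fintype.card_subtype, ← hW] at h4
      exact h4
    have h5 := h2.trans (Finset.sum_le_sum h3)
    rw [Finset.sum_const, nsmul_eq_mul] at h5
    refine h5.trans ?_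
    apply mul_le_mul_of_nonneg_right _ (by positivity)
    have h6 : I.card ≤ Fintype.card (Finset (Fin n) × Pt n × Pt n) := Finset.card_le_univ _
    have h7 : Fintype.card (Finset (Fin n) × Pt n × Pt n) = 8 ^ n := by
      rw [Fintype.card_prod, Fintype.card_prod, Fintype.card_finset, Fintype.card_fun,
        Fintype.card_bool, Fintype.card_fin, ← mul_pow, ← mul_pow]
      norm_num
    rw [h7] at h6
    exact_mod_cast h6
  -- the formulas with a grid
  obtain ⟨Ge, hGe⟩ : ∃ Ge : Finset (Fm n k M), Ge = univ.filter fun ω =>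
    ¬ NoGrid (Mod ω) p d := ⟨_, rfl⟩
  have hGrid : (Ge.card : ℝ) ≤ W * Real.exp (-(4 * n)) := by
    have h1 := hn₁ n hn0' d M hd hdn hM
    rw [Nat.card_eq_fintype_card, Fintype.card_subtype, ← hW] at h1
    rw [hGe]
    exact h1
  -- the formulas with generated models
  obtain ⟨Te, hTe⟩ : ∃ Te : Finset (Fm n k M), Te = univ.filter fun ω =>
    ¬ NoTri (Mod ω) p (d / 32) := ⟨_, rfl⟩
  have hTri : (Te.card : ℝ) ≤ W * Real.exp (-(4 * n)) := by
    have h1 := hn₂ n hn0'' (d / 32) M hd32 ((Nat.div_le_self _ _).trans hdn) hM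
    rw [Nat.card_eq_fintype_card, Fintype.card_subtype, ← hW] at h1
    rw [hTe]
    exact h1
  -- comparison
  have hlt : ((Bd.card + Ge.card + Te.card : ℕ) : ℝ) < (Gd.card : ℝ) := by
    rw [Nat.cast_add, Nat.cast_add]
    refine lt_of_le_of_lt (add_le_add (add_le_add hBad hGrid) hTri)
      (lt_of_lt_of_le ?_ hGood)
    have h1 : 3 * ((8 : ℝ) ^ n * Real.exp (-(4 * n))) < Y / 2 := by
      have e8 : (8 : ℝ) ≤ Real.exp (5 / 2) := by
        have h2 : (2.7182818283 : ℝ) < Real.exp 1 := Real.exp_one_gt_d9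
        have h3 : Real.exp (5 / 2) ^ 2 = Real.exp 1 ^ 5 := by
          rw [← Real.exp_nat_mul, ← Real.exp_nat_mul]
          norm_num
        have h4 : (2.7 : ℝ) ^ 5 ≤ Real.exp 1 ^ 5 :=
          pow_le_pow_left₀ (by norm_num) (by linarith) 5
        have h5 : 0 ≤ Real.exp (5 / 2) := (Real.exp_pos _).le
        by_contra hc
        push Not at hc
        have h6 : Real.exp (5 / 2) ^ 2 < 8 ^ 2 := by
          apply pow_lt_pow_left₀ hc h5 (by norm_num)
        rw [h3] at h6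
        norm_num at h4 h6
        linarith
      have h2 : (8 : ℝ) ^ n ≤ Real.exp (5 / 2 * n) := by
        calc (8 : ℝ) ^ n ≤ Real.exp (5 / 2) ^ n := pow_le_pow_left₀ (by norm_num) e8 n
          _ = Real.exp (5 / 2 * n) := by
            rw [← Real.exp_nat_mul]
            congr 1
            ring
      have h3 : (8 : ℝ) ^ n * Real.exp (-(4 * n)) ≤ Real.exp (5 / 2 * n) * Real.exp (-(4 * n)) :=
        mul_le_mul_of_nonneg_right h2 (Real.exp_pos _).le
      rw [← Real.exp_add] at h3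
      have h4 : (6 : ℝ) * Real.exp (-2) ≤ 1 := by
        rw [Real.exp_neg, ← div_eq_mul_inv, div_le_one (Real.exp_pos _)]
        have h5 : (2.7182818283 : ℝ) < Real.exp 1 := Real.exp_one_gt_d9
        have h6 : Real.exp 2 = Real.exp 1 ^ 2 := by
          rw [← Real.exp_nat_mul]
          norm_num
        rw [h6]
        nlinarith
      have h5 : 6 * (Y * Real.exp (-2)) ≤ Y := by
        have := mul_le_mul_of_nonneg_left h4 hYpos.le
        linarith
      have h6 : Real.exp (5 / 2 * n + -(4 * n)) < Y * Real.exp (-2) := by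
        rw [hY, ← Real.exp_add]
        apply Real.exp_lt_exp.2
        have : Δ * n ≤ 1 / 128 * n := mul_le_mul_of_nonneg_right hΔs (by linarith)
        linarith
      linarith
    calc (8 : ℝ) ^ n * (W * Real.exp (-(4 * n))) + W * Real.exp (-(4 * n)) +
          W * Real.exp (-(4 * n))
        ≤ (8 : ℝ) ^ n * (W * Real.exp (-(4 * n))) + (8 : ℝ) ^ n * (W * Real.exp (-(4 * n))) +
          (8 : ℝ) ^ n * (W * Real.exp (-(4 * n))) := by
          have h8 : (1 : ℝ) ≤ 8 ^ n := one_le_pow₀ (by norm_num)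
          have h9 : 0 ≤ W * Real.exp (-(4 * n)) := by positivity
          have := mul_le_mul_of_nonneg_right h8 h9
          linarith
      _ = W * (3 * ((8 : ℝ) ^ n * Real.exp (-(4 * n)))) := by ring
      _ < W * (Y / 2) := mul_lt_mul_of_pos_left h1 hWpos
      _ = W * Y / 2 := by ring
  have hex : ∃ ω ∈ Gd, ω ∉ (Bd ∪ Ge) ∪ Te := by
    by_contra hc
    push Not at hc
    have h1 : Gd.card ≤ ((Bd ∪ Ge) ∪ Te).card := Finset.card_le_card hc
    have h2 : (Gd.card : ℝ) ≤ ((Bd.card + Ge.card + Te.card : ℕ) : ℝ) := by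
      exact_mod_cast h1.trans ((Finset.card_union_le _ _).trans
        (Nat.add_le_add_right (Finset.card_union_le _ _) _))
    linarith
  obtain ⟨ω, h1, h2⟩ := hex
  rw [Finset.mem_union, not_or, Finset.mem_union, not_or] at h2
  obtain ⟨⟨h2, h3⟩, h5⟩ := h2
  rw [hGd, Finset.mem_filter] at h1
  rw [hBd, Finset.mem_filter] at h2
  rw [hGe, Finset.mem_filter] at h3
  rw [hTe, Finset.mem_filter] at h5
  refine ⟨ω, ?_, ?_, ?_, ?_⟩
  · rw [← hY]
    exact h1.2
  · by_contra h4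
    exact h2 ⟨Finset.mem_univ _, h4⟩
  · by_contra h4
    exact h3 ⟨Finset.mem_univ _, h4⟩
  · by_contra h4
    exact h5 ⟨Finset.mem_univ _, h4⟩

end Pool.Agent.STS
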